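import Pool.Agent.Lib.MP_1a91b9_nuT.S3.Main

/-!
# G7, stream KT, file Ent: removable singularities, functions with a multiplier

PROOFS.
* `exists_entire`: this is the first part of the proof of `S3.liouville` (file nuT/S3/Liou.lean): the function
  `G z = if z ∈ S then limUnder (𝓝[≠] z) F else F z` (the block `hGd`); copy it.
* `tendsto_lat`: for `l ∈ PP.lattice` and a function with `F (z + l) = χ l * F z`: from
  `z F(z) → 0` at `0` and `F z = χ(l) F(z - l)`, `(z - l) F z = χ(l) ((z - l) F(z - l)) → χ(l) * 0 = 0`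
  (`tendsto_translate` of nuT/S3/Local.lean or composition with `z ↦ z - l`, which maps `𝓝[≠] l` to `𝓝[≠] 0`).
* `eq_zero_of_char`: let `G` be the entire function of `exists_entire` (`S = PP.lattice`, `eventually_notMem` gives `hS`).
  `G (z + l) = χ l * G z` for all `z`: both sides are continuous in `z` and agree on the complement of the lattice, which is
  dense (argue as for `hGp` in `liouville`: limits along `𝓝[≠] z`). The function `z ↦ ‖G z‖` is continuous and periodic for
  `PP.lattice`, so its range is compact (`IsZLattice.isCompact_range_of_periodic PP.lattice`), in particular bounded; so the range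
  of `G` is bounded and `G` is constant (`Differentiable.apply_eq_apply_of_bounded`): `G = c`. Then `c = χ l₀ * c`,
  `χ l₀ ≠ 1`, so `c = 0`.
* `deriv_const`: `H` entire with `H (z + l) = H z + c l` for the lattice points `l`: the derivative of `H` is entire
  (`Differentiable.deriv`? use `Differentiable.contDiff` for complex differentiable functions, or `H.differentiable.analyticAt` and
  `AnalyticAt.deriv`), periodic (`deriv_comp_add_const`), so bounded as above and constant `a`; then `z ↦ H z - a z` has
  derivative `0`, so it is constant (`is_const_of_deriv_eq_zero`).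
-/

set_option autoImplicit false

namespace Pool.Agent.Lib.MP_1a91b9_nuW.KT

open Complex Filter Topology Pool.Agent.Lib.MP_1a91b9_nuT Pool.Agent.Lib.MP_1a91b9_nuT.S3

noncomputable section

variable [Pool.Agent.Lib.MP_1a91b9_nuT.CD]

/-- Removable singularities at the points of a closed discrete set. -/
theorem exists_entire {S : Set ℂ} (hS : ∀ z, ∀ᶠ w in 𝓝[≠] z, w ∉ S) {F : ℂ → ℂ}
    (hd : ∀ z ∉ S, DifferentiableAt ℂ F z)
    (hb : ∀ s ∈ S, Tendsto (fun z => (z - s) * F z) (𝓝[≠] s) (𝓝 0)) :
    ∃ G : ℂ → ℂ, Differentiable ℂ G ∧ ∀ z ∉ S, G z = F z := by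
  classical
  have hO := isOpen_of_iso hS
  set G : ℂ → ℂ := fun z => if z ∈ S then limUnder (𝓝[≠] z) F else F z with hG
  have hGF : ∀ z ∉ S, G z = F z := fun z hz => if_neg hz
  have hGd : Differentiable ℂ G := by
    intro z
    by_cases hz : z ∈ S
    · have h1 := hS z
      rw [eventually_nhdsWithin_iff] at h1
      obtain ⟨U, hU, hUo, hzU⟩ := mem_nhds_iff.1 h1
      have hUS : ∀ w ∈ U, w ≠ z → w ∉ S := fun w hw hwz => hU hw hwz
      have h2 : DifferentiableOn ℂ F (U \ {z}) := fun w hw =>
        (hd w (hUS w hw.1 hw.2)).differentiableWithinAt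
      have h3 : (fun w => F w - F z) =o[𝓝[≠] z] fun w => (w - z)⁻¹ := by
        rw [Asymptotics.isLittleO_iff_tendsto']
        · have h4 : Tendsto (fun w => (w - z) * F w - (w - z) * F z) (𝓝[≠] z) (𝓝 0) := by
            have h5 : Tendsto (fun w => (w - z) * F z) (𝓝[≠] z) (𝓝 0) := by
              have h6 : ContinuousAt (fun w => (w - z) * F z) z := by fun_prop
              have h7 := h6.tendsto
              rw [sub_self, zero_mul] at h7
              exact h7.mono_left nhdsWithin_le_nhds
            simpa using (hb z hz).sub h5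
          refine h4.congr' ?_
          filter_upwards [self_mem_nhdsWithin] with w hw
          rw [div_inv_eq_mul]
          ring
        · filter_upwards [self_mem_nhdsWithin] with w hw h
          exact absurd (inv_eq_zero.1 h) (sub_ne_zero.2 hw)
      have h8 := Complex.differentiableOn_update_limUnder_of_isLittleO (hUo.mem_nhds hzU) h2 h3
      have h9 : DifferentiableAt ℂ (Function.update F z (limUnder (𝓝[≠] z) F)) z :=
        (h8 z hzU).differentiableAt (hUo.mem_nhds hzU)
      refine h9.congr_of_eventuallyEq ?_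
      filter_upwards [hUo.mem_nhds hzU] with w hw
      by_cases hwz : w = z
      · subst hwz
        rw [Function.update_self]
        exact if_pos hz
      · rw [Function.update_of_ne hwz]
        exact hGF w (hUS w hw hwz)
    · refine (hd z hz).congr_of_eventuallyEq ?_
      filter_upwards [hO.mem_nhds hz] with w hw
      exact hGF w hw
  exact ⟨G, hGd, hGF⟩

theorem tendsto_lat {F : ℂ → ℂ} {χ : ℂ → ℂ}
    (hp : ∀ l ∈ PP.lattice, ∀ z, F (z + l) = χ l * F z)
    (h0 : Tendsto (fun z => z * F z) (𝓝[≠] 0) (𝓝 0)) :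
    ∀ s ∈ PP.lattice, Tendsto (fun z => (z - s) * F z) (𝓝[≠] s) (𝓝 0) := by
  intro s hs
  have h1 := (tendsto_translate (l := s) h0).const_mul (χ s)
  rw [mul_zero] at h1
  refine h1.congr fun z => ?_
  have h2 := hp s hs (z - s)
  rw [sub_add_cancel] at h2
  rw [h2]
  ring

/-- A function with a nontrivial unitary multiplier and removable singularities vanishes. -/
theorem eq_zero_of_char {F : ℂ → ℂ} {χ : ℂ → ℂ}
    (hd : ∀ z ∉ PP.lattice, DifferentiableAt ℂ F z)
    (h0 : Tendsto (fun z => z * F z) (𝓝[≠] 0) (𝓝 0))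
    (hχ : ∀ l ∈ PP.lattice, ‖χ l‖ = 1)
    (hp : ∀ l ∈ PP.lattice, ∀ z, F (z + l) = χ l * F z)
    {l₀ : ℂ} (hl₀ : l₀ ∈ PP.lattice) (hne : χ l₀ ≠ 1) : ∀ z ∉ PP.lattice, F z = 0 := by
  have hS : ∀ z, ∀ᶠ w in 𝓝[≠] z, w ∉ (PP.lattice : Set ℂ) := fun z => eventually_notMem z
  obtain ⟨G, hGd, hGF⟩ := exists_entire (S := (PP.lattice : Set ℂ)) hS hd (tendsto_lat hp h0)
  have hGp : ∀ l ∈ PP.lattice, ∀ z, G (z + l) = χ l * G z := by
    intro l hl z
    have h1 : ∀ᶠ w in 𝓝[≠] z, G (w + l) = χ l * G w := by
      filter_upwards [hS z] with w hw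
      have hw' : w + l ∉ (PP.lattice : Set ℂ) := by
        intro h
        apply hw
        have h2 := PP.lattice.sub_mem h hl
        rw [add_sub_cancel_right] at h2
        exact h2
      rw [hGF _ hw', hGF _ hw, hp l hl]
    have hc1 : ContinuousAt (fun w => G (w + l)) z :=
      ContinuousAt.comp (g := G) (f := fun w => w + l) hGd.continuous.continuousAt (by fun_prop)
    have hc2 : ContinuousAt (fun w => χ l * G w) z :=
      continuousAt_const.mul hGd.continuous.continuousAt
    exact tendsto_nhds_unique_of_eventuallyEq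
      (hc1.tendsto.mono_left (nhdsWithin_le_nhds (s := {z}ᶜ)))
      (hc2.tendsto.mono_left (nhdsWithin_le_nhds (s := {z}ᶜ))) h1
  have hcomp := IsZLattice.isCompact_range_of_periodic PP.lattice (fun z => ‖G z‖)
    hGd.continuous.norm (fun z w hw => by
      rw [hGp w hw, norm_mul, hχ w hw, one_mul])
  obtain ⟨C, hC⟩ := hcomp.isBounded.exists_norm_le
  have hbd : Bornology.IsBounded (Set.range G) := by
    rw [isBounded_iff_forall_norm_le]
    refine ⟨C, ?_⟩
    rintro _ ⟨z, rfl⟩
    have h3 := hC ‖G z‖ ⟨z, rfl⟩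
    rwa [norm_norm] at h3
  have hc : ∀ z, G z = G 0 := fun z => hGd.apply_eq_apply_of_bounded hbd z 0
  have h4 := hGp l₀ hl₀ 0
  rw [hc] at h4
  have h5 : (1 - χ l₀) * G 0 = 0 := by linear_combination h4
  have h6 : G 0 = 0 := by
    rcases mul_eq_zero.1 h5 with h | h
    · exact absurd (sub_eq_zero.1 h).symm hne
    · exact h
  intro z hz
  rw [← hGF z hz, hc, h6]

theorem deriv_const {H : ℂ → ℂ} (hd : Differentiable ℂ H) {c : ℂ → ℂ}
    (hp : ∀ l ∈ PP.lattice, ∀ z, H (z + l) = H z + c l) :
    ∃ a b : ℂ, ∀ z, H z = a * z + b := by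
  have hd' : Differentiable ℂ (deriv H) := fun z => (hd.analyticAt z).deriv.differentiableAt
  have hper : ∀ z w, w ∈ PP.lattice → deriv H (z + w) = deriv H z := by
    intro z w hw
    rw [← deriv_comp_add_const]
    have h1 : (fun x => H (x + w)) = fun x => H x + c w := funext fun x => hp w hw x
    rw [h1, deriv_add_const]
  have hcomp := IsZLattice.isCompact_range_of_periodic PP.lattice (deriv H) hd'.continuous hper
  have hc : ∀ z, deriv H z = deriv H 0 := fun z =>
    hd'.apply_eq_apply_of_bounded hcomp.isBounded z 0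
  refine ⟨deriv H 0, H 0, fun z => ?_⟩
  have h2 : Differentiable ℂ (fun z => H z - deriv H 0 * z) :=
    hd.sub (differentiable_id.const_mul _)
  have h3 : ∀ z, deriv (fun z => H z - deriv H 0 * z) z = 0 := by
    intro z
    have h4 : HasDerivAt (fun z => H z - deriv H 0 * z) (deriv H z - deriv H 0 * 1) z :=
      (hd z).hasDerivAt.sub ((hasDerivAt_id z).const_mul _)
    rw [h4.deriv, mul_one, hc, sub_self]
  have h5 := is_const_of_deriv_eq_zero h2 h3 z 0
  simp only [mul_zero, sub_zero] at h5
  linear_combination h5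

end

end Pool.Agent.Lib.MP_1a91b9_nuW.KT
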