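import Pool.Agent.Lib.MP_1a91b9_nuW.KT.Ent

/-!
# G7, stream KT, file Eta: the coefficient etaE does not vanish

PROOFS.
* `etaE_ne`: suppose `etaE = 0`. Then `E1 z = Zf z - e2E z` is differentiable off the lattice with derivative `-℘ z - e2E`
  (`hasDerivAt_Zf`). `liouville_eq` (nuT/S3/Liou.lean) for `F z = E1 z ^ 2 - ℘ z`, `S = PP.lattice`: there is a constant `c` with
  `E1 z ^ 2 = ℘ z + c` off the lattice (use `liouville`; the condition at the lattice points: by periodicity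
  (`tendsto_at_lattice` of nuT/S3/Local.lean) at `0`:
  `z (E1² - ℘) = z ((1/z + ZE 0 z - e2E z)² - 1/z² - Pr z) = 2 (ZE 0 z - e2E z) + z (ZE 0 z - e2E z)² - z Pr z → 0`, where
  `E1_eq_near`, `P_eq`, `ZE_zero_zero`, `analyticAt_ZE`, `tendsto_Pr`). Differentiate: `2 E1 z (-℘ z - e2E) = ℘' z` off the lattice.
  Square: `4 (℘ z + c) (℘ z + e2E)² = ℘' z ²`, and `℘'² = 4 ℘³ + 4 A Om⁴ ℘ + 4 B Om⁶` (`diff_eq`). `P_surj`
  (nuT/S3/Grp.lean): every complex number is a value of `℘`, so for all `x : ℂ`: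
  `(x + c) (x + e2E)² = x³ + A Om⁴ x + B Om⁶`. Comparing (x = -e2E; and the difference at `x` and the identity of polynomials, e.g. the
  values at `x = 0, 1, -1, 2` are enough to compare the coefficients): `c + 2 e2E = 0`, `e2E² + 2 c e2E = A Om⁴`,
  `c e2E² = B Om⁶`; so `A Om⁴ = -3 e2E²`, `B Om⁶ = -2 e2E³`, `(4 A³ + 27 B²) Om¹² = 0`, contradiction with `CD.disc` and
  `Om_ne_zero`.
-/

set_option autoImplicit false

namespace Pool.Agent.Lib.MP_1a91b9_nuW.KT

open Complex Filter Topology Pool.Agent.Lib.MP_1a91b9_nuT Pool.Agent.Lib.MP_1a91b9_nuT.S3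

noncomputable section

variable [Pool.Agent.Lib.MP_1a91b9_nuT.CD]

private theorem eta_tendsto (h0 : etaE = 0) :
    Tendsto (fun z => E1 z ^ 2 - PP.weierstrassP z) (𝓝[≠] 0) (𝓝 (-2 * e2E)) := by
  have hZ1 := tendsto_ZE (j := 1) (by norm_num)
  have hZ0 := tendsto_ZE (j := 0) (by norm_num)
  have hP0 := tendsto_Pr (j := 0) (by norm_num)
  have hz : Tendsto (fun z : ℂ => e2E * z) (𝓝[≠] 0) (𝓝 0) := by
    have h1 : ContinuousAt (fun z : ℂ => e2E * z) 0 := by fun_prop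
    have h2 := h1.tendsto
    rw [mul_zero] at h2
    exact h2.mono_left nhdsWithin_le_nhds
  have h1 := (((hZ1.const_mul 2).sub (tendsto_const_nhds (x := 2 * e2E))).add ((hZ0.sub hz).pow 2)).sub hP0
  have e1 : (2 : ℂ) * 0 - 2 * e2E + (0 - 0) ^ 2 - 0 = -2 * e2E := by ring
  rw [e1] at h1
  refine h1.congr' ?_
  filter_upwards [self_mem_nhdsWithin] with z hz0
  have hz1 : z ≠ 0 := hz0
  have h2 : E1 z = z⁻¹ + ZE 0 z - e2E * z := by
    rw [E1, h0, Zf_eq_ZE_zero]
    ring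
  rw [h2, P_eq]
  field_simp
  ring

theorem etaE_ne : etaE ≠ 0 := by
  intro h0
  have hE : E1 = fun z => Zf z - e2E * z := by
    funext z
    rw [E1, h0]
    ring
  have hdE : ∀ z ∉ PP.lattice, HasDerivAt E1 (-PP.weierstrassP z - e2E) z := by
    intro z hz
    rw [hE]
    have h1 := (hasDerivAt_Zf hz).sub ((hasDerivAt_id z).const_mul e2E)
    rw [mul_one] at h1
    exact h1
  have hper : ∀ l ∈ PP.lattice, ∀ z, E1 (z + l) ^ 2 - PP.weierstrassP (z + l) =
      E1 z ^ 2 - PP.weierstrassP z := by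
    intro l hl z
    rw [E1_add hl, P_add hl]
  have ht := eta_tendsto h0
  have hF : ∀ z ∉ PP.lattice, E1 z ^ 2 - PP.weierstrassP z = -2 * e2E :=
    liouville_eq (S := (PP.lattice : Set ℂ)) (F := fun z => E1 z ^ 2 - PP.weierstrassP z) eventually_notMem
      (fun z hz => ((hdE z hz).pow 2).differentiableAt.sub (hasDerivAt_P hz).differentiableAt)
      (fun s hs => tendsto_mul_zero (tendsto_at_lattice hper ht hs)) hper ht
  have hD : ∀ z ∉ PP.lattice, 2 * E1 z * (-PP.weierstrassP z - e2E) = PP.derivWeierstrassP z := by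
    intro z hz
    have h1 := (hdE z hz).pow 2
    have h2 : HasDerivAt (fun z => PP.weierstrassP z - 2 * e2E) (PP.derivWeierstrassP z) z :=
      (hasDerivAt_P hz).sub_const _
    have h3 : (fun z => PP.weierstrassP z - 2 * e2E) =ᶠ[𝓝 z] E1 ^ 2 := by
      filter_upwards [(isOpen_compl).mem_nhds hz] with w hw
      have h4 := hF w hw
      show PP.weierstrassP w - 2 * e2E = E1 w ^ 2
      linear_combination -h4
    have h4 := h1.congr_of_eventuallyEq h3
    have h5 := h4.unique h2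
    rw [← h5]
    simp
  have hpoly : ∀ x : ℂ, (x - 2 * e2E) * (x + e2E) ^ 2 = x ^ 3 + cA ℂ * Om ^ 4 * x + cB ℂ * Om ^ 6 := by
    intro x
    obtain ⟨z, hz, rfl⟩ := Per.P_surj x
    have h1 := hF z hz
    have h2 := hD z hz
    have h3 := diff_eq hz
    rw [← h2] at h3
    have h4 : E1 z ^ 2 = PP.weierstrassP z - 2 * e2E := by linear_combination h1
    have h5 : (4 : ℂ) ≠ 0 := by norm_num
    refine mul_left_cancel₀ h5 ?_
    linear_combination h3 - 4 * (PP.weierstrassP z + e2E) ^ 2 * h4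
  have hx0 := hpoly 0
  have hx1 := hpoly 1
  have hB : cB ℂ * Om ^ 6 = -2 * e2E ^ 3 := by linear_combination -hx0
  have hA : cA ℂ * Om ^ 4 = -3 * e2E ^ 2 := by linear_combination hx0 - hx1
  have hdisc : (4 * cA ℂ ^ 3 + 27 * cB ℂ ^ 2) * Om ^ 12 = 0 := by
    have h1 : (4 * cA ℂ ^ 3 + 27 * cB ℂ ^ 2) * Om ^ 12 =
        4 * (cA ℂ * Om ^ 4) ^ 3 + 27 * (cB ℂ * Om ^ 6) ^ 2 := by ring
    rw [h1, hA, hB]
    ring
  rcases mul_eq_zero.1 hdisc with h1 | h1
  · refine Pool.Agent.Lib.MP_1a91b9_nuT.CD.disc ?_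
    exact_mod_cast h1
  · exact Om_ne_zero (pow_eq_zero_iff (by norm_num) |>.1 h1)

end

end Pool.Agent.Lib.MP_1a91b9_nuW.KT
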