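import Pool.Agent.Lib.MP_1a91b9_nuW.KT.Phi

/-!
# G7, stream KT, file PhiM: the product of two Kronecker theta functions

`Phi w z = sg (z + w) / (sg z * sg w) * exp(-(qp w) z)`, `pr γ w = exp(etaE (γ conj w - conj γ w))`.

PROOFS.
* `Phi_mul`: put `v = w + w'`. The exponentials cancel: `Phi w z * Phi w' z = Phi v z * R z` with
  `R z = sg (z + w) sg (z + w') sg v / (sg z sg w sg w' sg (z + v))`. It remains: `R z = Zf z + Zf w + Zf w' - Zf (z + v)` (the linear
  parts of the `E1` cancel). `liouville` for `F z = R z - Zf z + Zf (z + v)` and `S = {z | z ∈ lattice ∨ z + v ∈ lattice}`: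
  periodic (`sg_add` for the six factors: the factors `c` and exponentials cancel: `qp l * (w + w' - v) = 0`; `Zf_add`);
  at `s ∈ lattice`: `(z - s) R z → 1`, `(z - s) Zf z → 1` (`tendsto_E1`), `(z - s) Zf (z + v) → 0`; by periodicity it is enough to do
  `s = 0`: `sg w sg w' sg v / (sg w sg w' sg v) = 1` and `z / sg z → 1`. At `s` with `s + v ∈ lattice`: by periodicity `s = -v`:
  `(z + v) R z → sg(-w') sg (-w) sg v / (sg (-v) sg w sg w') = -1` (`sg (z + v) / (z + v) → 1`), `(z + v) Zf (z + v) → 1`,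
  `(z + v) Zf z → 0`. So `F` is a constant; at `z = -w` (`-w ∉ lattice`, `-w + v = w' ∉ lattice`): `R (-w) = 0`,
  `F (-w) = - Zf (-w) + Zf w' = Zf w + Zf w'`.
-/

set_option autoImplicit false

namespace Pool.Agent.Lib.MP_1a91b9_nuW.KT

open Complex Filter Topology Pool.Agent.Lib.MP_1a91b9_nuT Pool.Agent.Lib.MP_1a91b9_nuT.S3

noncomputable section

variable [Pool.Agent.Lib.MP_1a91b9_nuT.CD]

/-- the quotient of the two sides -/
private def phim_R (w w' z : ℂ) : ℂ :=
  (sg (z + w) * sg (z + w') * sg (w + w')) / (sg z * sg w * sg w' * sg (z + (w + w')))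

private theorem phim_R_add {w w' l : ℂ} (hl : l ∈ PP.lattice) (z : ℂ) :
    phim_R w w' (z + l) = phim_R w w' z := by
  obtain ⟨c, hc, hcz⟩ := sg_add hl
  have e1 : sg (z + l + w) = c * Complex.exp (qp l * (z + w)) * sg (z + w) := by
    rw [← hcz]
    congr 1
    ring
  have e2 : sg (z + l + w') = c * Complex.exp (qp l * (z + w')) * sg (z + w') := by
    rw [← hcz]
    congr 1
    ring
  have e3 : sg (z + l + (w + w')) =
      c * Complex.exp (qp l * (z + (w + w'))) * sg (z + (w + w')) := by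
    rw [← hcz]
    congr 1
    ring
  have e4 : Complex.exp (qp l * (z + w)) * Complex.exp (qp l * (z + w')) =
      Complex.exp (qp l * z) * Complex.exp (qp l * (z + (w + w'))) := by
    rw [← Complex.exp_add, ← Complex.exp_add]
    congr 1
    ring
  have hA : c * c * (Complex.exp (qp l * z) * Complex.exp (qp l * (z + (w + w')))) ≠ 0 :=
    mul_ne_zero (mul_ne_zero hc hc) (mul_ne_zero (Complex.exp_ne_zero _) (Complex.exp_ne_zero _))
  unfold phim_R
  rw [e1, e2, e3, hcz z]
  rw [← mul_div_mul_left (sg (z + w) * sg (z + w') * sg (w + w'))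
    (sg z * sg w * sg w' * sg (z + (w + w'))) hA]
  congr 1
  · rw [← e4]
    ring
  · ring

/-- the elliptic function without poles -/
private def phim_F (w w' z : ℂ) : ℂ := phim_R w w' z - E1 z + E1 (z + (w + w'))

private theorem phim_F_add {w w' l : ℂ} (hl : l ∈ PP.lattice) (z : ℂ) :
    phim_F w w' (z + l) = phim_F w w' z := by
  have e : z + l + (w + w') = z + (w + w') + l := by ring
  unfold phim_F
  rw [phim_R_add hl, E1_add hl, e, E1_add hl]

private theorem phim_F_eq (w w' : ℂ) : phim_F w w' = fun z => phim_R w w' z - Zf z +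
    Zf (z + (w + w')) - (e2E * (w + w') + etaE * (starRingEnd ℂ) (w + w')) := by
  funext z
  unfold phim_F E1
  rw [map_add (starRingEnd ℂ) z (w + w')]
  ring

private theorem phim_diff {w w' : ℂ} (hw : w ∉ PP.lattice) (hw' : w' ∉ PP.lattice) {z : ℂ}
    (hz : z ∉ PP.lattice) (hzv : z + (w + w') ∉ PP.lattice) :
    DifferentiableAt ℂ (phim_F w w') z := by
  rw [phim_F_eq]
  have a1 : DifferentiableAt ℂ Zf z := (hasDerivAt_Zf hz).differentiableAt
  have a2 : DifferentiableAt ℂ (fun z => Zf (z + (w + w'))) z :=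
    ((hasDerivAt_Zf hzv).comp_add_const z (w + w')).differentiableAt
  have b1 : ∀ a : ℂ, DifferentiableAt ℂ (fun z => sg (z + a)) z := fun a =>
    (sg_diff (z + a)).comp z (differentiableAt_id.add_const a)
  have a3 : DifferentiableAt ℂ (phim_R w w') z := by
    unfold phim_R
    refine DifferentiableAt.div (((b1 w).mul (b1 w')).mul_const _)
      ((((sg_diff z).mul_const _).mul_const _).mul (b1 _)) ?_
    exact mul_ne_zero (mul_ne_zero (mul_ne_zero (sg_ne hz) (sg_ne hw)) (sg_ne hw')) (sg_ne hzv)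
  exact ((a3.sub a1).add a2).sub_const _

private theorem phim_sg_tendsto (a s : ℂ) :
    Tendsto (fun z => sg (z + a)) (𝓝[≠] s) (𝓝 (sg (s + a))) := by
  have h1 : ContinuousAt (fun z => sg (z + a)) s :=
    ContinuousAt.comp (g := sg) (f := fun z => z + a) (sg_cont (s + a)) (by fun_prop)
  exact h1.tendsto.mono_left nhdsWithin_le_nhds

private theorem phim_E1_add (a s : ℂ) (h : s + a ∉ PP.lattice) :
    Tendsto (fun z => (z - s) * E1 (z + a)) (𝓝[≠] s) (𝓝 0) := by
  have h1 := tendsto_E1_shift (s := s) (w := -a) (by rwa [sub_neg_eq_add])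
  have h2 := tendsto_mul_zero h1
  simpa only [sub_neg_eq_add] using h2

/-- the singularity at `0` -/
private theorem phim_zero {w w' : ℂ} (hw : w ∉ PP.lattice) (hw' : w' ∉ PP.lattice)
    (hv : w + w' ∉ PP.lattice) : Tendsto (fun z => z * phim_F w w' z) (𝓝[≠] 0) (𝓝 0) := by
  have a1 : Tendsto (fun z => (sg z / z)⁻¹) (𝓝[≠] 0) (𝓝 1) := by
    have := tendsto_sg.inv₀ one_ne_zero
    rwa [inv_one] at this
  have a2 := phim_sg_tendsto w 0
  have a3 := phim_sg_tendsto w' 0
  have a4 := phim_sg_tendsto (w + w') 0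
  rw [zero_add] at a2 a3 a4
  have hne : sg w * sg w' * sg (w + w') ≠ 0 :=
    mul_ne_zero (mul_ne_zero (sg_ne hw) (sg_ne hw')) (sg_ne hv)
  have a5 : Tendsto (fun z => sg w * sg w' * sg (z + (w + w'))) (𝓝[≠] 0)
      (𝓝 (sg w * sg w' * sg (w + w'))) := a4.const_mul _
  have a6 := a1.mul (((a2.mul a3).mul_const (sg (w + w'))).div a5 hne)
  rw [div_self hne, one_mul] at a6
  have a7 := tendsto_E1 (zero_mem PP.lattice)
  have a8 := phim_E1_add (w + w') 0 (by rwa [zero_add])
  have a9 := (a6.sub a7).add a8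
  rw [sub_self, zero_add] at a9
  refine a9.congr' ?_
  filter_upwards [eventually_notMem 0, self_mem_nhdsWithin] with z hz hz0
  have hz1 := sg_ne hz
  have hz2 : z ≠ 0 := hz0
  have e : (sg z / z)⁻¹ * (sg (z + w) * sg (z + w') * sg (w + w') /
      (sg w * sg w' * sg (z + (w + w')))) = z * phim_R w w' z := by
    unfold phim_R
    rw [inv_div, div_mul_div_comm, mul_div_assoc']
    congr 1
    ring
  unfold phim_F
  simp only [Pi.div_apply]
  rw [e, sub_zero]
  ring

/-- the singularity at `-v` -/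
private theorem phim_neg {w w' : ℂ} (hw : w ∉ PP.lattice) (hw' : w' ∉ PP.lattice)
    (hv : w + w' ∉ PP.lattice) :
    Tendsto (fun z => (z - -(w + w')) * phim_F w w' z) (𝓝[≠] (-(w + w'))) (𝓝 0) := by
  have hnv : -(w + w') ∉ PP.lattice := fun h => hv (by simpa using neg_mem h)
  have a1 : Tendsto (fun z => (sg (z - -(w + w')) / (z - -(w + w')))⁻¹) (𝓝[≠] (-(w + w'))) (𝓝 1) := by
    have h1 := tendsto_sg.inv₀ one_ne_zero
    rw [inv_one] at h1
    exact tendsto_translate (l := -(w + w')) h1
  have a2 := phim_sg_tendsto w (-(w + w'))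
  have a3 := phim_sg_tendsto w' (-(w + w'))
  have a4 := phim_sg_tendsto 0 (-(w + w'))
  have e2 : sg (-(w + w') + w) = -sg w' := by
    rw [← sg_neg]
    congr 1
    ring
  have e3 : sg (-(w + w') + w') = -sg w := by
    rw [← sg_neg]
    congr 1
    ring
  have e4 : sg (-(w + w') + 0) = -sg (w + w') := by rw [add_zero, sg_neg]
  rw [e2] at a2
  rw [e3] at a3
  rw [e4] at a4
  simp only [add_zero] at a4
  have n1 := sg_ne hw
  have n2 := sg_ne hw'
  have n3 := sg_ne hv
  have hne : -sg (w + w') * (sg w * sg w') ≠ 0 := mul_ne_zero (neg_ne_zero.2 n3) (mul_ne_zero n1 n2)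
  have a5 : Tendsto (fun z => sg z * (sg w * sg w')) (𝓝[≠] (-(w + w')))
      (𝓝 (-sg (w + w') * (sg w * sg w'))) := a4.mul_const _
  have a6 := a1.mul (((a2.mul a3).mul_const (sg (w + w'))).div a5 hne)
  have e5 : (1 : ℂ) * (-sg w' * -sg w * sg (w + w') / (-sg (w + w') * (sg w * sg w'))) = -1 := by
    field_simp
  rw [e5] at a6
  have a7 : Tendsto (fun z => (z - -(w + w')) * E1 z) (𝓝[≠] (-(w + w'))) (𝓝 0) := by
    have := phim_E1_add 0 (-(w + w')) (by rwa [add_zero])
    simpa only [add_zero] using this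
  have a8 : Tendsto (fun z => (z - -(w + w')) * E1 (z - -(w + w'))) (𝓝[≠] (-(w + w'))) (𝓝 1) :=
    tendsto_E1_sub (by rw [sub_self]; exact zero_mem _)
  have a9 := (a6.sub a7).add a8
  have e6 : (-1 : ℂ) - 0 + 1 = 0 := by ring
  rw [e6] at a9
  refine a9.congr' ?_
  filter_upwards [self_mem_nhdsWithin] with z hz0
  have e : (sg (z - -(w + w')) / (z - -(w + w')))⁻¹ * (sg (z + w) * sg (z + w') * sg (w + w') /
      (sg z * (sg w * sg w'))) = (z - -(w + w')) * phim_R w w' z := by
    unfold phim_R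
    rw [inv_div, div_mul_div_comm, mul_div_assoc', sub_neg_eq_add]
    congr 1
    ring
  unfold phim_F
  simp only [Pi.div_apply]
  rw [e, sub_neg_eq_add]
  ring

private theorem phim_eq {w w' z : ℂ} (hw : w ∉ PP.lattice) (hw' : w' ∉ PP.lattice)
    (hv : w + w' ∉ PP.lattice) (hz : z ∉ PP.lattice) (hzv : z + (w + w') ∉ PP.lattice) :
    phim_R w w' z = E1 z + E1 w + E1 w' - E1 (z + (w + w')) := by
  have hS : ∀ z : ℂ, ∀ᶠ x in 𝓝[≠] z,
      x ∉ {x : ℂ | x ∈ PP.lattice ∨ x + (w + w') ∈ PP.lattice} := by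
    intro z
    filter_upwards [eventually_notMem z, eventually_add_notMem (w + w') z] with x b1 b2 b3
    exact b3.elim b1 b2
  have hnw : -w ∉ PP.lattice := fun h => hw (by simpa using neg_mem h)
  obtain ⟨c, hc⟩ := liouville hS (F := phim_F w w')
    (fun z hz => phim_diff hw hw' (fun h => hz (Or.inl h)) (fun h => hz (Or.inr h))) (by
      intro s hs
      by_cases hsl : s ∈ PP.lattice
      · have b7 := tendsto_translate (l := s) (phim_zero hw hw' hv)
        refine b7.congr fun z => ?_
        have := phim_F_add (w := w) (w' := w') hsl (z - s)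
        rw [sub_add_cancel] at this
        rw [this]
      · have hsv : s + (w + w') ∈ PP.lattice := hs.resolve_left hsl
        have b1 := tendsto_sub_ne s (s + (w + w'))
        have e : s - (s + (w + w')) = -(w + w') := by ring
        rw [e] at b1
        refine ((phim_neg hw hw' hv).comp b1).congr fun z => ?_
        have h1 := phim_F_add (w := w) (w' := w') hsv (z - (s + (w + w')))
        rw [sub_add_cancel] at h1
        simp only [Function.comp_apply]
        rw [h1]
        congr 1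
        ring) (fun l hl z => phim_F_add hl z)
  have h1 := hc z (fun h => h.elim hz hzv)
  have h2 := hc (-w) (fun h => h.elim hnw (fun h => hw' (by
    have e : -w + (w + w') = w' := by ring
    rwa [e] at h)))
  rw [← h2] at h1
  have e : -w + (w + w') = w' := by ring
  have h3 : phim_R w w' (-w) = 0 := by
    unfold phim_R
    rw [neg_add_cancel, sg_zero_iff.2 (zero_mem _), zero_mul, zero_mul, zero_div]
  unfold phim_F at h1
  rw [h3, E1_neg, e] at h1
  linear_combination h1

theorem Phi_mul {w w' z : ℂ} (hw : w ∉ PP.lattice) (hw' : w' ∉ PP.lattice)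
    (hv : w + w' ∉ PP.lattice) (hz : z ∉ PP.lattice) (hzv : z + (w + w') ∉ PP.lattice) :
    Phi w z * Phi w' z = Phi (w + w') z * (E1 z + E1 w + E1 w' - E1 (z + (w + w'))) := by
  rw [← phim_eq hw hw' hv hz hzv]
  have e1 : Complex.exp (-(qp (w + w')) * z) =
      Complex.exp (-(qp w) * z) * Complex.exp (-(qp w') * z) := by
    rw [← Complex.exp_add]
    congr 1
    unfold qp
    rw [map_add]
    ring
  have n1 := sg_ne hw
  have n2 := sg_ne hw'
  have n3 := sg_ne hv
  have n4 := sg_ne hz
  have n5 := sg_ne hzv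
  unfold Phi phim_R
  rw [e1]
  field_simp

end

end Pool.Agent.Lib.MP_1a91b9_nuW.KT
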