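import Pool.Agent.Lib.MP_1a91b9_nuT.D3.Tors
import Pool.Agent.Lib.MP_1a91b9_nuX.DB.Uni

/-!
# G7, stream KT, file Tor: division points, integrality of the coordinates

`TorP A z`: `z` is annihilated by an element of `𝓞 K` which is a unit of `A`.

PROOFS.
* `torP_add`, `torP_neg`, `torP_mul`: multiply the annihilators; the lattice is stable under `𝓞 K`
  (`emb_coords`/`exists_coords` of nuT/Nrm.lean and `mem_PP`, `mul_mem`).
* `X_memP`: this is `Xq_mem` of nuT/D3/Tors.lean, with `a` instead of the natural number `m`: `exists_uni` (nuX/DB/Uni.lean) gives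
  `u` with `u (embK a * z) = sm ℂ a (u z)`, so `sm ℂ a (u z) = 0`, and `MP_1a91b9_nuX.DB.not_ker_torsO A.valuation` with
  `A.valuation (embK a) = 1` as in the proof of `Xq_mem`.
* `sl_memP`: `sl_sq` (nuT/S3/Grp.lean, namespace Ell): `sl u v ^ 2 = X u + X v + X (u + v)`, so `V (sl u v) ^ 2 ≤ 1`
  (`torP_add` for `u + v`).
* `exists_order`: `w` has an annihilator `a ≠ 0`, so the natural number `|embK a|²` annihilates it
  (`norm_coords`, `conj_mem`); take the least positive one (`Nat.find`).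
-/

set_option autoImplicit false

namespace Pool.Agent.Lib.MP_1a91b9_nuW.KT

open Complex NumberField Pool.Agent.Lib.MP_1a91b9_nuT Pool.Agent.Lib.MP_1a91b9_nuT.S3
  Pool.Agent.Lib.MP_1a91b9_nuT.Ell

noncomputable section

variable [Pool.Agent.Lib.MP_1a91b9_nuT.CD]

/-- division points of order prime to the residue characteristic, in the sense of `𝓞 K` -/
def TorP (A : ValuationSubring ℂ) (z : ℂ) : Prop :=
  ∃ a : 𝓞 K, A.valuation (embK (a : K)) = 1 ∧ embK (a : K) * z ∈ PP.lattice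

variable {A : ValuationSubring ℂ}

private theorem tor_emb_mul (a b : 𝓞 K) :
    embK ((a * b : 𝓞 K) : K) = embK (a : K) * embK (b : K) := by
  have h : ((a * b : 𝓞 K) : K) = (a : K) * (b : K) := map_mul (algebraMap (𝓞 K) K) _ _
  rw [h, map_mul]

theorem torP_add {z w : ℂ} (hz : TorP A z) (hw : TorP A w) : TorP A (z + w) := by
  obtain ⟨a, ha, haz⟩ := hz
  obtain ⟨b, hb, hbw⟩ := hw
  refine ⟨a * b, ?_, ?_⟩
  · rw [tor_emb_mul, map_mul, ha, hb, one_mul]
  · rw [tor_emb_mul]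
    have e : embK (a : K) * embK (b : K) * (z + w) =
        embK (b : K) * (embK (a : K) * z) + embK (a : K) * (embK (b : K) * w) := by ring
    rw [e]
    exact add_mem (S3.mul_mem (S3.embK_mem b) haz) (S3.mul_mem (S3.embK_mem a) hbw)

theorem torP_neg {z : ℂ} (hz : TorP A z) : TorP A (-z) := by
  obtain ⟨a, ha, haz⟩ := hz
  refine ⟨a, ha, ?_⟩
  rw [mul_neg]
  exact neg_mem haz

theorem torP_nat {z : ℂ} (hz : TorP A z) (k : ℕ) : TorP A ((k : ℂ) * z) := by
  obtain ⟨a, ha, haz⟩ := hz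
  refine ⟨a, ha, ?_⟩
  have e : embK (a : K) * ((k : ℂ) * z) = (k : ℂ) * (embK (a : K) * z) := by ring
  rw [e]
  exact S3.mul_mem (S3.nat_mem k) haz

theorem X_memP {z : ℂ} (hz : TorP A z) (hz0 : z ∉ PP.lattice) : X z ∈ A := by
  classical
  obtain ⟨a, ha, haz⟩ := hz
  obtain ⟨u, -, h0, h1, h2⟩ := MP_1a91b9_nuX.DB.exists_uni
  have hu0 : u z ≠ 0 := fun h => hz0 ((h0 z).1 h)
  have hau : MP_1a91b9_nuX.DB.sm ℂ a (u z) = 0 := by
    rw [← h2]
    exact (h0 _).2 haz
  have hk := MP_1a91b9_nuX.DB.not_ker_torsO A.valuation hu0 (a := a) ha hau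
  have h3 := (MP_1a91b9_nuX.DB.not_ker A.valuation hk).2.1
  rw [(h1 z hz0).1] at h3
  exact (A.valuation_le_one_iff _).1 h3

theorem sl_memP {u v : ℂ} (hu : TorP A u) (hv : TorP A v) (hu0 : u ∉ PP.lattice)
    (hv0 : v ∉ PP.lattice) (huv : u + v ∉ PP.lattice) : Ell.sl u v ∈ A := by
  have h3 := sl_sq hu0 hv0 huv
  rw [← A.valuation_le_one_iff]
  by_contra hc
  push Not at hc
  have h5 : 1 < A.valuation (Ell.sl u v) ^ 2 := one_lt_pow₀ hc (by norm_num)
  rw [← map_pow, ← h3] at h5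
  refine absurd h5 (not_lt.2 (Valuation.map_add_le _ (Valuation.map_add_le _ ?_ ?_) ?_))
  · exact (A.valuation_le_one_iff _).2 (X_memP hu hu0)
  · exact (A.valuation_le_one_iff _).2 (X_memP hv hv0)
  · exact (A.valuation_le_one_iff _).2 (X_memP (torP_add hu hv) huv)

theorem exists_order {w : ℂ} (hw : TorP A w) :
    ∃ n : ℕ, 0 < n ∧ (n : ℂ) * w ∈ PP.lattice ∧
      ∀ k : ℕ, 0 < k → k < n → (k : ℂ) * w ∉ PP.lattice := by
  classical
  obtain ⟨a, ha, haw⟩ := hw
  have ha0 : embK (a : K) ≠ 0 := by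
    intro h
    rw [h, map_zero] at ha
    exact zero_ne_one ha
  have hN := normSq_emb a
  have hpos : 0 < Ideal.absNorm (Ideal.span {a}) := by
    have h1 : (0 : ℝ) < (Ideal.absNorm (Ideal.span {a}) : ℝ) := by
      rw [← hN]
      exact Complex.normSq_pos.2 ha0
    exact_mod_cast h1
  have hex : ∃ n : ℕ, 0 < n ∧ (n : ℂ) * w ∈ PP.lattice := by
    refine ⟨Ideal.absNorm (Ideal.span {a}), hpos, ?_⟩
    have e : ((Ideal.absNorm (Ideal.span {a}) : ℕ) : ℂ) * w =
        (starRingEnd ℂ) (embK (a : K)) * (embK (a : K) * w) := by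
      have e1 : ((Ideal.absNorm (Ideal.span {a}) : ℕ) : ℂ) =
          embK (a : K) * (starRingEnd ℂ) (embK (a : K)) := by
        rw [Complex.mul_conj, hN, Complex.ofReal_natCast]
      rw [e1]
      ring
    rw [e]
    exact S3.mul_mem (S3.conj_mem (S3.embK_mem a)) haw
  obtain ⟨h1, h2⟩ := Nat.find_spec hex
  exact ⟨Nat.find hex, h1, h2, fun k hk hkn h => Nat.find_min hex hkn ⟨hk, h⟩⟩

end

end Pool.Agent.Lib.MP_1a91b9_nuW.KT
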