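import Pool.Agent.Lib.MP_1a91b9_nuW.KT.PhiN
import Pool.Agent.Lib.MP_1a91b9_nuW.KT.PhiM
import Pool.Agent.Lib.MP_1a91b9_nuW.KT.Tor

/-!
# G7, stream KT, file Int: integrality of the Kronecker theta function at division points

`TorP A z`: `z` is annihilated by an element of `𝓞 K` which is a unit of `A`.

PROOFS.
* `Phi_int`: let `n` be the order of `w` (`exists_order`); `n ≠ 1` as `w ∉ lattice`. For `1 ≤ k ≤ n - 1`:
  `V (Phi w z / Om) ^ k ≤ V (Phi (k w) z / Om)`. Induction: `k = 1` equality. `k → k + 1 ≤ n - 1`: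
  `Phi (k w) z * Phi w z = Phi ((k + 1) w) z * Q`, `Q = E1 z + E1 (k w) + E1 w - E1 (z + (k + 1) w)` (`Phi_mul`: `k w`, `w`,
  `(k + 1) w` are not in the lattice by minimality, `z + (k + 1) w` is not by hypothesis), and
  `Q / Om = - sl (k w) w - sl z ((k + 1) w)`, so `V (Q / Om) ≤ 1` (`sl_mem`).
  For `k = n - 1`: `Phi ((n - 1) w) z = Phi (-w + n w) z = Phi (-w) z` (`Phi_add_left`). So
  `V (Phi w z / Om) ^ n ≤ V (Phi w z * Phi (-w) z / Om ^ 2) = V (X z - X w) ≤ 1` (`Phi_mul_neg`, `X_memP`), so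
  `V (Phi w z / Om) ≤ 1` (`pow_le_one_iff`).
-/

set_option autoImplicit false

namespace Pool.Agent.Lib.MP_1a91b9_nuW.KT

open Complex NumberField Pool.Agent.Lib.MP_1a91b9_nuT Pool.Agent.Lib.MP_1a91b9_nuT.S3
  Pool.Agent.Lib.MP_1a91b9_nuT.Ell

noncomputable section

variable [Pool.Agent.Lib.MP_1a91b9_nuT.CD]

variable {A : ValuationSubring ℂ}

theorem Phi_int {w z : ℂ} (hw : TorP A w) (hz : TorP A z) (hw0 : w ∉ PP.lattice)
    (hz0 : z ∉ PP.lattice) (hzw : ∀ k : ℕ, z + (k : ℂ) * w ∉ PP.lattice) :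
    Phi w z / Om ∈ A := by
  obtain ⟨n, hn0, hnw, hmin⟩ := exists_order hw
  have hn1 : n ≠ 1 := by
    rintro rfl
    rw [Nat.cast_one, one_mul] at hnw
    exact hw0 hnw
  have hOm : Om ≠ 0 := Om_ne_zero
  -- the induction
  have key : ∀ k : ℕ, 1 ≤ k → k < n →
      A.valuation (Phi w z / Om) ^ k ≤ A.valuation (Phi ((k : ℂ) * w) z / Om) := by
    intro k hk
    induction k, hk using Nat.le_induction with
    | base =>
      intro _
      rw [pow_one, Nat.cast_one, one_mul]
    | succ k hk ih =>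
      intro hkn
      have ih' := ih (by omega)
      have hkw : (k : ℂ) * w ∉ PP.lattice := hmin k (by omega) (by omega)
      have e1 : (k : ℂ) * w + w = ((k + 1 : ℕ) : ℂ) * w := by push_cast; ring
      have hv : (k : ℂ) * w + w ∉ PP.lattice := by
        rw [e1]
        exact hmin (k + 1) (by omega) hkn
      have hzv : z + ((k : ℂ) * w + w) ∉ PP.lattice := by
        rw [e1]
        exact hzw (k + 1)
      have h1 := Phi_mul hkw hw0 hv hz0 hzv
      have h2 : (E1 z + E1 ((k : ℂ) * w) + E1 w - E1 (z + ((k : ℂ) * w + w))) / Om =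
          -(Ell.sl ((k : ℂ) * w) w + Ell.sl z ((k : ℂ) * w + w)) := by
        rw [Ell.sl, Ell.sl]
        ring
      have hTk : TorP A ((k : ℂ) * w) := torP_nat hw k
      have hTv : TorP A ((k : ℂ) * w + w) := torP_add hTk hw
      have h3 : (E1 z + E1 ((k : ℂ) * w) + E1 w - E1 (z + ((k : ℂ) * w + w))) / Om ∈ A := by
        rw [h2]
        exact neg_mem (add_mem (sl_memP hTk hw hkw hw0 hv) (sl_memP hz hTv hz0 hv hzv))
      have h4 := (A.valuation_le_one_iff _).2 h3
      have h5 : Phi ((k : ℂ) * w) z / Om * (Phi w z / Om) = Phi ((k : ℂ) * w + w) z / Om *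
          ((E1 z + E1 ((k : ℂ) * w) + E1 w - E1 (z + ((k : ℂ) * w + w))) / Om) := by
        calc Phi ((k : ℂ) * w) z / Om * (Phi w z / Om)
            = (Phi ((k : ℂ) * w) z * Phi w z) / (Om * Om) := by rw [div_mul_div_comm]
          _ = _ := by rw [h1, div_mul_div_comm]
      calc A.valuation (Phi w z / Om) ^ (k + 1)
          = A.valuation (Phi w z / Om) ^ k * A.valuation (Phi w z / Om) := pow_succ _ _
        _ ≤ A.valuation (Phi ((k : ℂ) * w) z / Om) * A.valuation (Phi w z / Om) :=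
            mul_le_mul_left ih' _
        _ = A.valuation (Phi ((k : ℂ) * w + w) z / Om) * A.valuation
          ((E1 z + E1 ((k : ℂ) * w) + E1 w - E1 (z + ((k : ℂ) * w + w))) / Om) := by
            rw [← map_mul, h5, map_mul]
        _ ≤ A.valuation (Phi ((k : ℂ) * w + w) z / Om) * 1 := mul_le_mul_right h4 _
        _ = A.valuation (Phi (((k + 1 : ℕ) : ℂ) * w) z / Om) := by rw [mul_one, e1]
  have h6 := key (n - 1) (by omega) (by omega)
  have e2 : ((n - 1 : ℕ) : ℂ) * w = -w + (n : ℂ) * w := by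
    rw [Nat.cast_sub (by omega), Nat.cast_one]
    ring
  rw [e2, Phi_add_left hnw] at h6
  have h7 : Phi (-w) z / Om * (Phi w z / Om) = X z - X w := by
    rw [div_mul_div_comm, mul_comm (Phi (-w) z), Phi_mul_neg hw0 hz0, X, X, ← sq, sub_div]
  have h8 : X z - X w ∈ A := sub_mem (X_memP hz hz0) (X_memP hw hw0)
  have h9 : A.valuation (Phi w z / Om) ^ n ≤ 1 := by
    calc A.valuation (Phi w z / Om) ^ n
        = A.valuation (Phi w z / Om) ^ (n - 1) * A.valuation (Phi w z / Om) := by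
          rw [← pow_succ, Nat.sub_add_cancel (by omega)]
      _ ≤ A.valuation (Phi (-w) z / Om) * A.valuation (Phi w z / Om) := mul_le_mul_left h6 _
      _ = A.valuation (X z - X w) := by rw [← map_mul, h7]
      _ ≤ 1 := (A.valuation_le_one_iff _).2 h8
  exact (A.valuation_le_one_iff _).1 ((pow_le_one_iff hn0.ne').1 h9)

end

end Pool.Agent.Lib.MP_1a91b9_nuW.KT
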