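import Pool.Agent.Lib.MP_1a91b9_nuW.KT.Pr

/-!
# G7, stream KT, file Ksum: finite sums of `E1` with a character

PROOFS.
* `sum_pr`: the sum over `i` of `pr (α τ_i) w` vanishes: by `pr_ker` there is `l` in the lattice with `pr l w ≠ 1`. Translation by
  `l / α` permutes the classes: `∃ σ` bijective with `(l / α + τ i) - τ (σ i) ∈ lattice` (`exists_shift` of nuT/S3/Dist.lean with
  `x = l / α`, `sg = 1`), and `pr (α τ (σ i)) w = pr (l + α τ i - α m) w = pr l w * pr (α τ i) w` because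
  `pr (α m) w = pr m (conj α w) = 1` for `m` in the lattice (`pr_conj`, `pr_lat`). So the sum `s` satisfies `s = pr l w * s`.
* `Phi_sum`: let `T z = ∑ i, pr (α τ_i) w * (α⁻¹ * E1 (z / α + τ_i))`. Off the lattice (`z ∉ lattice` implies
  `z / α + τ_i ∉ lattice`, `notMem_shift` with `α * (z / α) = z`)
  `T z = ∑ i, pr (α τ_i) w * (α⁻¹ * Zf (z / α + τ_i)) + const` because of `sum_pr` (the terms with `z` and `conj z` have the factor
  `∑ pr (α τ_i) w = 0`), so `T` is differentiable off the lattice (`hasDerivAt_Zf`).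
  `T (z + l) = pr (-l) w * T z` for lattice points `l`, ALL `z`: shift by `l / α` as above (`E1_congr`).
  `z * T z → 1` at `0`: there is exactly one `i₀` with `τ i₀ ∈ lattice` (`h2 0`), with `pr (α τ_{i₀}) w = 1`
  (`pr (α m) w = 1` for `m` in the lattice), `z α⁻¹ E1 (z / α + τ_{i₀}) = (z / α) E1 (z / α) → 1` (`tendsto_E1`), the other terms are
  bounded near `0` (`continuousAt_E1` at `τ_i`).
  Apply `eq_zero_of_char` (file Ent) to `F z = T z - Phi w z`, `χ l = pr (-l) w`, `norm_pr`, and a lattice point `l₀` with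
  `pr (-l₀) w ≠ 1` (`pr_ker`).
-/

set_option autoImplicit false

namespace Pool.Agent.Lib.MP_1a91b9_nuW.KT

open Complex Filter Topology Pool.Agent.Lib.MP_1a91b9_nuT Pool.Agent.Lib.MP_1a91b9_nuT.S3

noncomputable section

variable [Pool.Agent.Lib.MP_1a91b9_nuT.CD]

variable {ι : Type*} [Fintype ι] {α : ℂ} {τ : ι → ℂ}

omit [Fintype ι] in
/-- translation by a division point -/
private theorem ksum_shift (h1 : ∀ i, α * τ i ∈ PP.lattice)
    (h2 : ∀ x, α * x ∈ PP.lattice → ∃! i, x - τ i ∈ PP.lattice) {w : ℂ}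
    (hαw : (starRingEnd ℂ) α * w ∈ PP.lattice) {x : ℂ} (hx : α * x ∈ PP.lattice) :
    ∃ σ : ι → ι, Function.Bijective σ ∧ ∀ i, (x + τ i) - τ (σ i) ∈ PP.lattice ∧
      pr (α * τ (σ i)) w = pr (α * x) w * pr (α * τ i) w := by
  obtain ⟨σ, hσ, hσ2⟩ := exists_shift h1 h2 hx 1 (Or.inl rfl)
  refine ⟨σ, hσ, fun i => ?_⟩
  have e1 := hσ2 i
  rw [one_mul] at e1
  refine ⟨e1, ?_⟩
  have e2 : α * τ (σ i) = α * x + α * τ i + α * (-((x + τ i) - τ (σ i))) := by ring
  rw [e2, pr_add_left, pr_add_left, pr_conj α (-((x + τ i) - τ (σ i))) w,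
    pr_lat (neg_mem e1) hαw, mul_one]

/-- a lattice point with a nontrivial value -/
private theorem ksum_exists {w : ℂ} (hw : w ∉ PP.lattice) : ∃ l ∈ PP.lattice, pr l w ≠ 1 := by
  by_contra h
  push Not at h
  exact hw (pr_ker h)

private theorem ksum_pr_zero (w : ℂ) : pr 0 w = 1 := by
  rw [pr, map_zero, zero_mul, zero_mul, sub_zero, mul_zero, Complex.exp_zero]

private theorem ksum_pr_neg (l w : ℂ) : pr (-l) w * pr l w = 1 := by
  rw [← pr_add_left, neg_add_cancel, ksum_pr_zero]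

theorem sum_pr (hα0 : α ≠ 0) (h1 : ∀ i, α * τ i ∈ PP.lattice)
    (h2 : ∀ x, α * x ∈ PP.lattice → ∃! i, x - τ i ∈ PP.lattice) {w : ℂ} (hw : w ∉ PP.lattice)
    (hαw : (starRingEnd ℂ) α * w ∈ PP.lattice) : ∑ i, pr (α * τ i) w = 0 := by
  obtain ⟨l, hl, hl1⟩ := ksum_exists hw
  have hx : α * (l / α) = l := mul_div_cancel₀ l hα0
  obtain ⟨σ, hσ, hσ2⟩ := ksum_shift h1 h2 hαw (x := l / α) (by rw [hx]; exact hl)
  have e1 : ∑ i, pr (α * τ (σ i)) w = ∑ i, pr (α * τ i) w :=
    (Equiv.ofBijective σ hσ).sum_comp (fun i => pr (α * τ i) w)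
  have e2 : ∑ i, pr (α * τ (σ i)) w = pr l w * ∑ i, pr (α * τ i) w := by
    rw [Finset.mul_sum]
    refine Finset.sum_congr rfl fun i _ => ?_
    rw [(hσ2 i).2, hx]
  rw [e1] at e2
  have e3 : (1 - pr l w) * ∑ i, pr (α * τ i) w = 0 := by linear_combination e2
  exact (mul_eq_zero.1 e3).resolve_left (sub_ne_zero.2 (Ne.symm hl1))

/-- The Kronecker theta function at a division point `w` as a finite sum of values of `E1`. -/
theorem Phi_sum (hα : α ∈ PP.lattice) (hα0 : α ≠ 0) (h1 : ∀ i, α * τ i ∈ PP.lattice)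
    (h2 : ∀ x, α * x ∈ PP.lattice → ∃! i, x - τ i ∈ PP.lattice) {w : ℂ} (hw : w ∉ PP.lattice)
    (hαw : (starRingEnd ℂ) α * w ∈ PP.lattice) {z : ℂ} (hz : z ∉ PP.lattice) :
    ∑ i, pr (α * τ i) w * (α⁻¹ * E1 (z / α + τ i)) = Phi w z := by
  classical
  obtain ⟨T, hT⟩ : ∃ T : ℂ → ℂ, T = fun z => ∑ i, pr (α * τ i) w * (α⁻¹ * E1 (z / α + τ i)) :=
    ⟨_, rfl⟩
  have hTz : ∀ z, T z = ∑ i, pr (α * τ i) w * (α⁻¹ * E1 (z / α + τ i)) := fun z => by rw [hT]
  -- the multiplier
  have hper : ∀ l ∈ PP.lattice, ∀ z, T (z + l) = pr (-l) w * T z := by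
    intro l hl z
    have hx : α * (l / α) = l := mul_div_cancel₀ l hα0
    obtain ⟨σ, hσ, hσ2⟩ := ksum_shift h1 h2 hαw (x := l / α) (by rw [hx]; exact hl)
    rw [hTz, hTz, ← (Equiv.ofBijective σ hσ).sum_comp
      (fun i => pr (α * τ i) w * (α⁻¹ * E1 (z / α + τ i))), Finset.mul_sum]
    refine Finset.sum_congr rfl fun i _ => ?_
    obtain ⟨g1, g2⟩ := hσ2 i
    have g3 : E1 ((z + l) / α + τ i) = E1 (z / α + τ (σ i)) := by
      refine E1_congr ?_
      have e : (z + l) / α + τ i - (z / α + τ (σ i)) = l / α + τ i - τ (σ i) := by ring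
      rw [e]
      exact g1
    rw [Equiv.ofBijective_apply, g3, g2, hx]
    have g4 := ksum_pr_neg l w
    linear_combination -(pr (α * τ i) w * (α⁻¹ * E1 (z / α + τ (σ i)))) * g4
  -- differentiability
  have hs := sum_pr hα0 h1 h2 hw hαw
  have hTf : T = fun z => ∑ i, pr (α * τ i) w * (α⁻¹ * Zf (z / α + τ i)) -
      (e2E * ∑ i, pr (α * τ i) w * (α⁻¹ * τ i) +
        etaE * ∑ i, pr (α * τ i) w * (α⁻¹ * (starRingEnd ℂ) (τ i))) := by
    funext z
    rw [hTz]
    have e1 : ∀ i, pr (α * τ i) w * (α⁻¹ * E1 (z / α + τ i)) =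
        pr (α * τ i) w * (α⁻¹ * Zf (z / α + τ i)) -
          (e2E * (pr (α * τ i) w * (α⁻¹ * τ i)) +
            etaE * (pr (α * τ i) w * (α⁻¹ * (starRingEnd ℂ) (τ i)))) -
          (e2E * (α⁻¹ * (z / α)) + etaE * (α⁻¹ * (starRingEnd ℂ) (z / α))) * pr (α * τ i) w := by
      intro i
      rw [E1, map_add]
      ring
    simp_rw [e1]
    rw [Finset.sum_sub_distrib, Finset.sum_sub_distrib, Finset.sum_add_distrib, ← Finset.mul_sum,
      ← Finset.mul_sum, ← Finset.mul_sum, hs, mul_zero, sub_zero]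
  have hdiff : ∀ z ∉ PP.lattice, DifferentiableAt ℂ T z := by
    intro z hz
    rw [hTf]
    refine DifferentiableAt.sub_const (DifferentiableAt.fun_sum fun i _ => ?_) _
    have hz1 : α * (z / α) ∉ PP.lattice := by rwa [mul_div_cancel₀ z hα0]
    have h3 : DifferentiableAt ℂ Zf (z / α + τ i) :=
      (hasDerivAt_Zf (notMem_shift hα h1 hz1 i)).differentiableAt
    have h4 : DifferentiableAt ℂ (fun z : ℂ => z / α + τ i) z := by fun_prop
    have h5 : DifferentiableAt ℂ (Zf ∘ fun z : ℂ => z / α + τ i) z :=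
      DifferentiableAt.comp (g := Zf) (f := fun z : ℂ => z / α + τ i) z h3 h4
    exact (h5.const_mul _).const_mul _
  -- the pole
  have hpole : Tendsto (fun z => z * T z) (𝓝[≠] 0) (𝓝 1) := by
    obtain ⟨k, hk, hku⟩ := h2 0 (by rw [mul_zero]; exact zero_mem _)
    simp only at hk hku
    have hk' : τ k ∈ PP.lattice := by
      have := neg_mem hk
      rwa [zero_sub, neg_neg] at this
    have hkp : pr (α * τ k) w = 1 := by
      rw [pr_conj]
      exact pr_lat hk' hαw
    have c1 : Tendsto (fun z : ℂ => z / α) (𝓝[≠] 0) (𝓝[≠] 0) := by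
      refine tendsto_nhdsWithin_iff.2 ⟨?_, ?_⟩
      · have h3 : ContinuousAt (fun z : ℂ => z / α) 0 := by fun_prop
        have h4 := h3.tendsto
        rw [zero_div] at h4
        exact h4.mono_left nhdsWithin_le_nhds
      · filter_upwards [self_mem_nhdsWithin] with z hz
        exact div_ne_zero hz hα0
    have c2 := (tendsto_E1 (zero_mem PP.lattice)).comp c1
    have c3 : Tendsto (fun z => ∑ i ∈ Finset.univ.erase k,
        z * (pr (α * τ i) w * (α⁻¹ * E1 (z / α + τ i)))) (𝓝[≠] 0)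
        (𝓝 (∑ i ∈ Finset.univ.erase k, (0 : ℂ))) := by
      refine tendsto_finsetSum _ fun i hi => ?_
      have hne : τ i ∉ PP.lattice := by
        intro h
        have h3 := neg_mem h
        rw [← zero_sub] at h3
        exact (Finset.mem_erase.1 hi).1 (hku i h3)
      have h5 : ContinuousAt (fun z => E1 (z / α + τ i)) 0 := by
        refine ContinuousAt.comp (g := E1) (f := fun z => z / α + τ i) ?_ (by fun_prop)
        simp only [zero_div, zero_add]
        exact continuousAt_E1 hne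
      have h6 : Tendsto (fun z => pr (α * τ i) w * (α⁻¹ * E1 (z / α + τ i))) (𝓝[≠] 0)
          (𝓝 (pr (α * τ i) w * (α⁻¹ * E1 (0 / α + τ i)))) :=
        ((h5.tendsto.const_mul _).const_mul _).mono_left nhdsWithin_le_nhds
      have h7 := tendsto_mul_zero h6
      simp only [sub_zero] at h7
      exact h7
    have c4 := c2.add c3
    rw [Finset.sum_const_zero, add_zero] at c4
    refine c4.congr fun z => ?_
    rw [hTz, ← Finset.add_sum_erase Finset.univ _ (Finset.mem_univ k), mul_add, Finset.mul_sum,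
      hkp]
    have e1 : E1 (z / α + τ k) = E1 (z / α) := E1_add hk' _
    rw [e1]
    show (z / α - 0) * E1 (z / α) + _ = _
    rw [sub_zero]
    ring
  -- comparison
  obtain ⟨l, hl, hl1⟩ := ksum_exists hw
  have hF := eq_zero_of_char (F := fun z => T z - Phi w z) (χ := fun l => pr (-l) w)
    (fun z hz => (hdiff z hz).sub (Phi_diff hw hz)) ?_ (fun l _ => norm_pr (-l) w) ?_
    (l₀ := -l) (neg_mem hl) (by
      show pr (-(-l)) w ≠ 1
      rw [neg_neg]
      exact hl1) z hz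
  · have h3 : T z - Phi w z = 0 := hF
    rw [← hTz]
    exact sub_eq_zero.1 h3
  · have h3 := hpole.sub (Phi_pole hw)
    rw [sub_self] at h3
    refine h3.congr fun z => ?_
    ring
  · intro l hl z
    show T (z + l) - Phi w (z + l) = pr (-l) w * (T z - Phi w z)
    rw [hper l hl, Phi_add hl, mul_sub]

end

end Pool.Agent.Lib.MP_1a91b9_nuW.KT
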