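import Pool.Agent.Lib.MP_1a91b9_nuW.KT.Sig
import Pool.Agent.Lib.MP_1a91b9_nuW.KT.Ent

/-!
# G7, stream KT, file Leg: quasi periods of sigma

`qp l = e2E * l + etaE * conj l` is the quasi period of `Zf` (`Zf_add`).

PROOFS.
* `sg_add`: fix `l` in the lattice. `q(z) = sg (z + l) / sg z * exp(-qp l * z)` has derivative `0` off the lattice:
  `sg'(z + l) = Zf (z + l) sg (z + l) = (Zf z + qp l) sg (z + l)` (`IsSig.der`, `Zf_add`). The complement of the lattice is open and
  preconnected, so `q` is a constant `c` there (see the proof of `Zf_add_aux` in nuT/S3/Quasi.lean), `c ≠ 0` because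
  `sg (1/2 + l) ≠ 0`. At lattice points both sides of the claim vanish.
* `legendre_int`: apply `sg_add` for `l = 1` (`c₁`), `l = zt` (`c₂`): computing `sg (z + 1 + zt)` in two ways,
  `c₁ exp(qp 1 * (z + zt)) c₂ exp(qp zt * z) sg z = c₂ exp(qp zt * (z + 1)) c₁ exp(qp 1 * z) sg z` at `z = 1/2`
  (`sg (1/2) ≠ 0`, `half_notMem`) gives `exp(qp 1 * zt) = exp(qp zt)`, so `qp 1 * zt - qp zt = k * (2 π I)` for an integer `k`
  (`Complex.exp_eq_exp_iff_exists_int`). `qp 1 * zt - qp zt = etaE * (zt - conj zt)` (ring, `map_one`).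
-/

set_option autoImplicit false

namespace Pool.Agent.Lib.MP_1a91b9_nuW.KT

open Complex Filter Topology Pool.Agent.Lib.MP_1a91b9_nuT Pool.Agent.Lib.MP_1a91b9_nuT.S3

noncomputable section

variable [Pool.Agent.Lib.MP_1a91b9_nuT.CD]

/-- the quasi period -/
def qp (l : ℂ) : ℂ := e2E * l + etaE * (starRingEnd ℂ) l

theorem sg_add {l : ℂ} (hl : l ∈ PP.lattice) :
    ∃ c : ℂ, c ≠ 0 ∧ ∀ z, sg (z + l) = c * Complex.exp (qp l * z) * sg z := by
  have hd : ∀ w ∈ ((PP.lattice : Set ℂ)ᶜ),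
      HasDerivAt (fun z => sg (z + l) * Complex.exp (-(qp l * z)) / sg z) 0 w := by
    intro w hw
    have hw2 : w + l ∉ PP.lattice := fun h => hw ((add_mem_iff hl).1 h)
    have h1 := (sg_spec.der (w + l) hw2).comp_add_const w l
    have h2 : HasDerivAt (fun z => Complex.exp (-(qp l * z)))
        (Complex.exp (-(qp l * w)) * (-(qp l * 1))) w :=
      (((hasDerivAt_id w).const_mul (qp l)).neg).cexp
    have h3 := sg_spec.der w hw
    have h4 : sg w ≠ 0 := sg_ne hw
    have h5 := (h1.mul h2).div h3 h4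
    refine h5.congr_deriv ?_
    have h6 : Zf (w + l) = Zf w + qp l := Zf_add hl w
    rw [div_eq_zero_iff]
    left
    change (Zf (w + l) * sg (w + l) * Complex.exp (-(qp l * w)) +
      sg (w + l) * (Complex.exp (-(qp l * w)) * (-(qp l * 1)))) * sg w -
      sg (w + l) * Complex.exp (-(qp l * w)) * (Zf w * sg w) = 0
    rw [h6]
    ring
  have h2l : 1 / 2 + l ∉ PP.lattice := fun h => half_notMem ((add_mem_iff hl).1 h)
  refine ⟨sg (1 / 2 + l) * Complex.exp (-(qp l * (1 / 2))) / sg (1 / 2),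
    div_ne_zero (mul_ne_zero (sg_ne h2l) (Complex.exp_ne_zero _)) (sg_ne half_notMem), fun z => ?_⟩
  by_cases hz : z ∈ PP.lattice
  · rw [sg_zero_iff.2 ((add_mem_iff hl).2 hz), sg_zero_iff.2 hz, mul_zero]
  · have h5 := isOpen_compl.is_const_of_deriv_eq_zero
      (f := fun z => sg (z + l) * Complex.exp (-(qp l * z)) / sg z)
      (isPreconnected_compl_of_countable countable_lat)
      (fun w hw => (hd w hw).differentiableAt.differentiableWithinAt)
      (fun w hw => (hd w hw).deriv) hz half_notMem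
    have h6 : sg (z + l) * Complex.exp (-(qp l * z)) / sg z =
        sg (1 / 2 + l) * Complex.exp (-(qp l * (1 / 2))) / sg (1 / 2) := h5
    rw [← h6]
    have h7 : sg z ≠ 0 := sg_ne hz
    have h8 : Complex.exp (-(qp l * z)) * Complex.exp (qp l * z) = 1 := by
      rw [← Complex.exp_add, neg_add_cancel, Complex.exp_zero]
    calc sg (z + l) = sg (z + l) * (Complex.exp (-(qp l * z)) * Complex.exp (qp l * z)) *
          (sg z / sg z) := by rw [h8, div_self h7, mul_one, mul_one]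
      _ = sg (z + l) * Complex.exp (-(qp l * z)) / sg z * Complex.exp (qp l * z) * sg z := by ring

theorem legendre_int : ∃ k : ℤ, etaE * (zt - (starRingEnd ℂ) zt) = (k : ℂ) * (2 * Real.pi * I) := by
  obtain ⟨c₁, hc₁, h₁⟩ := sg_add one_mem
  obtain ⟨c₂, hc₂, h₂⟩ := sg_add zt_mem
  have e1 : sg (1 / 2 + zt + 1) = c₁ * Complex.exp (qp 1 * (1 / 2 + zt)) *
      (c₂ * Complex.exp (qp zt * (1 / 2)) * sg (1 / 2)) := by rw [h₁, h₂]
  have e2 : sg (1 / 2 + 1 + zt) = c₂ * Complex.exp (qp zt * (1 / 2 + 1)) *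
      (c₁ * Complex.exp (qp 1 * (1 / 2)) * sg (1 / 2)) := by rw [h₂, h₁]
  have e3 : (1 / 2 + zt + 1 : ℂ) = 1 / 2 + 1 + zt := by ring
  rw [e3, e2] at e1
  have hs : sg (1 / 2) ≠ 0 := sg_ne half_notMem
  have h5 : Complex.exp (qp 1 * zt) = Complex.exp (qp zt) := by
    have e4 : Complex.exp (qp 1 * (1 / 2 + zt)) =
        Complex.exp (qp 1 * (1 / 2)) * Complex.exp (qp 1 * zt) := by
      rw [mul_add, Complex.exp_add]
    have e5 : Complex.exp (qp zt * (1 / 2 + 1)) =
        Complex.exp (qp zt * (1 / 2)) * Complex.exp (qp zt) := by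
      rw [mul_add, Complex.exp_add, mul_one]
    rw [e4, e5] at e1
    have hne : c₁ * c₂ * Complex.exp (qp 1 * (1 / 2)) * Complex.exp (qp zt * (1 / 2)) *
        sg (1 / 2) ≠ 0 := by
      refine mul_ne_zero (mul_ne_zero (mul_ne_zero (mul_ne_zero hc₁ hc₂) ?_) ?_) hs
      · exact Complex.exp_ne_zero _
      · exact Complex.exp_ne_zero _
    refine mul_left_cancel₀ hne ?_
    linear_combination -e1
  obtain ⟨k, hk⟩ := Complex.exp_eq_exp_iff_exists_int.1 h5
  refine ⟨k, ?_⟩
  have h6 : qp 1 = e2E + etaE := by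
    rw [qp, map_one]
    ring
  have h7 : qp zt = e2E * zt + etaE * (starRingEnd ℂ) zt := rfl
  rw [h6, h7] at hk
  linear_combination hk

end

end Pool.Agent.Lib.MP_1a91b9_nuW.KT
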