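import Pool.Agent.Lib.MP_1a91b9_nuW.KT.Simp
import Pool.Agent.Lib.MP_1a91b9_nuW.KT.Eta

/-!
# G7, stream KT, file LegS: the Legendre relation up to sign

`qp l = e2E * l + etaE * conj l` is the quasi period of `Zf` (`Zf_add`).

PROOFS.
* `legendre`: from `legendre_int`, `k ≠ 0` by `etaE_ne`. Suppose `2 ≤ |k|`, let `w = 1 / k` (real, `‖w‖ ≤ 1/2`, `w ≠ 0`, so `w`
  is not in the lattice: `m + n zt = 1/k` gives `n = 0` (imaginary parts, `zt_ne`), `m = 1/k`). Put
  `f z = sg (z + w) / (sg z * sg w) * exp(-(e2E w + etaE conj w) z)`: by `sg_add`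
  `f (z + l) = exp(qp l * w - (e2E w + etaE conj w) l) f z = exp(etaE (conj l * w - l * conj w)) f z`. For `l = m + n zt`:
  `etaE (conj l - l) / k = etaE (conj zt - zt) n / k = -2 π I n`, so `f` is periodic. It is differentiable off the lattice and
  `z f z → sg w / sg w = 1` (`tendsto_sg`). By `eta_of_simple` `etaE = 0`, contradiction.
-/

set_option autoImplicit false

namespace Pool.Agent.Lib.MP_1a91b9_nuW.KT

open Complex Filter Topology Pool.Agent.Lib.MP_1a91b9_nuT Pool.Agent.Lib.MP_1a91b9_nuT.S3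

noncomputable section

variable [Pool.Agent.Lib.MP_1a91b9_nuT.CD]

private theorem legS_notMem {k : ℤ} (hk : k ≠ 0) (h : ¬ (k = 1 ∨ k = -1)) :
    (1 / (k : ℂ)) ∉ PP.lattice := by
  intro hm
  obtain ⟨m, n, hmn⟩ := mem_PP.1 hm
  apply h
  have hk' : (k : ℂ) ≠ 0 := Int.cast_ne_zero.2 hk
  have e0 : ((k : ℂ))⁻¹ = (((k : ℝ)⁻¹ : ℝ) : ℂ) := by
    rw [Complex.ofReal_inv, Complex.ofReal_intCast]
  have hn : (n : ℝ) * zt.im = 0 := by
    have h1 := congrArg Complex.im hmn
    rw [one_div, e0, Complex.ofReal_im] at h1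
    simp only [Complex.add_im, Complex.mul_im, Complex.intCast_im, Complex.intCast_re, zero_mul,
      add_zero, zero_add] at h1
    linarith
  have hn0 : n = 0 := by
    rcases mul_eq_zero.1 hn with h2 | h2
    · exact_mod_cast h2
    · exact absurd h2 zt_im_ne_zero
  rw [hn0, Int.cast_zero, zero_mul, add_zero] at hmn
  have h3 : (m : ℂ) * (k : ℂ) = 1 := by
    rw [hmn, one_div, inv_mul_cancel₀ hk']
  have h4 : m * k = 1 := by exact_mod_cast h3
  exact Int.isUnit_iff.1 (IsUnit.of_mul_eq_one m (by rw [mul_comm]; exact h4))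

/-- The Legendre relation up to sign. -/
theorem legendre : ∃ s : ℤ, (s = 1 ∨ s = -1) ∧
    etaE * (zt - (starRingEnd ℂ) zt) = (s : ℂ) * (2 * Real.pi * I) := by
  obtain ⟨k, hk⟩ := legendre_int
  have hE := etaE_ne
  have hk0 : k ≠ 0 := by
    rintro rfl
    rw [Int.cast_zero, zero_mul] at hk
    exact mul_ne_zero hE zt_sub_conj hk
  refine ⟨k, ?_, hk⟩
  by_contra hcon
  have hw := legS_notMem hk0 hcon
  have hkc : (k : ℂ) ≠ 0 := Int.cast_ne_zero.2 hk0
  have hconj : (starRingEnd ℂ) (1 / (k : ℂ)) = 1 / (k : ℂ) := by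
    rw [map_div₀, map_one, map_intCast]
  have hwk : (1 / (k : ℂ)) * k = 1 := by rw [one_div, inv_mul_cancel₀ hkc]
  set w : ℂ := 1 / (k : ℂ) with hwdef
  have hW : sg w ≠ 0 := sg_ne hw
  apply hE
  refine eta_of_simple (f := fun z => sg (z + w) / (sg z * sg w) * Complex.exp (-(qp w) * z))
    ?_ ?_ ?_
  · intro z hz
    have hZ : sg z ≠ 0 := sg_ne hz
    have d1 : DifferentiableAt ℂ (fun z => sg (z + w)) z :=
      (sg_diff (z + w)).comp z (differentiableAt_id.add_const w)
    have d2 : DifferentiableAt ℂ (fun z => sg z * sg w) z := (sg_diff z).mul_const _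
    have d3 : DifferentiableAt ℂ (fun z => Complex.exp (-(qp w) * z)) z :=
      ((differentiableAt_id (𝕜 := ℂ)).const_mul (-(qp w))).cexp
    exact (d1.div d2 (mul_ne_zero hZ hW)).mul d3
  · intro l hl z
    obtain ⟨c, hc, hcz⟩ := sg_add hl
    obtain ⟨m, n, hmn⟩ := mem_PP.1 hl
    show sg (z + l + w) / (sg (z + l) * sg w) * Complex.exp (-(qp w) * (z + l)) =
      sg (z + w) / (sg z * sg w) * Complex.exp (-(qp w) * z)
    rw [show z + l + w = (z + w) + l by ring, hcz (z + w), hcz z]
    by_cases hZ : sg z = 0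
    · rw [hZ, mul_zero, zero_mul, div_zero, zero_mul, div_zero, zero_mul]
    have hx : Complex.exp (qp l * (z + w)) * Complex.exp (-(qp w) * (z + l)) =
        Complex.exp (qp l * z) * Complex.exp (-(qp w) * z) := by
      rw [← Complex.exp_add, ← Complex.exp_add, Complex.exp_eq_exp_iff_exists_int]
      refine ⟨-n, ?_⟩
      have hlc : (starRingEnd ℂ) l = m + n * (starRingEnd ℂ) zt := by
        rw [← hmn, map_add, map_mul, map_intCast, map_intCast]
      have hkey : qp l * w - qp w * l = (n : ℂ) * w * (etaE * ((starRingEnd ℂ) zt - zt)) := by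
        unfold qp
        rw [hconj, hlc, ← hmn]
        ring
      have hk3 : etaE * ((starRingEnd ℂ) zt - zt) = -((k : ℂ) * (2 * Real.pi * I)) := by
        rw [← hk]
        ring
      rw [hk3] at hkey
      push_cast
      linear_combination hkey - (n : ℂ) * (2 * Real.pi * I) * hwk
    have hE2 : Complex.exp (qp l * z) ≠ 0 := Complex.exp_ne_zero _
    calc c * Complex.exp (qp l * (z + w)) * sg (z + w) /
          (c * Complex.exp (qp l * z) * sg z * sg w) * Complex.exp (-(qp w) * (z + l))
        = sg (z + w) / (sg z * sg w) * ((Complex.exp (qp l * (z + w)) *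
          Complex.exp (-(qp w) * (z + l))) / Complex.exp (qp l * z)) := by
          field_simp
      _ = sg (z + w) / (sg z * sg w) * Complex.exp (-(qp w) * z) := by
          rw [hx, mul_div_cancel_left₀ _ hE2]
  · have t1 : Tendsto (fun z => sg (z + w) / sg w) (𝓝[≠] 0) (𝓝 1) := by
      have c1 : ContinuousAt (fun z => sg (z + w) / sg w) 0 := by
        have c2 : ContinuousAt (fun z => sg (z + w)) 0 := by
          have c3 : ContinuousAt (fun z : ℂ => z + w) 0 := continuousAt_id.add continuousAt_const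
          exact ContinuousAt.comp (g := sg) (sg_cont _) c3
        exact c2.div_const _
      have c4 := c1.tendsto
      rw [zero_add, div_self hW] at c4
      exact c4.mono_left nhdsWithin_le_nhds
    have t2 : Tendsto (fun z => (sg z / z)⁻¹) (𝓝[≠] 0) (𝓝 1) := by
      have h2 := tendsto_sg.inv₀ one_ne_zero
      rw [inv_one] at h2
      exact h2
    have t3 : Tendsto (fun z => Complex.exp (-(qp w) * z)) (𝓝[≠] 0) (𝓝 1) := by
      have c1 : ContinuousAt (fun z => Complex.exp (-(qp w) * z)) 0 :=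
        (continuousAt_const.mul continuousAt_id).cexp
      have c4 := c1.tendsto
      rw [mul_zero, Complex.exp_zero] at c4
      exact c4.mono_left nhdsWithin_le_nhds
    have t4 := (t1.mul t2).mul t3
    rw [mul_one, mul_one] at t4
    refine t4.congr' ?_
    filter_upwards [self_mem_nhdsWithin] with z hz
    have hz0 : z ≠ 0 := hz
    show sg (z + w) / sg w * (sg z / z)⁻¹ * Complex.exp (-(qp w) * z) =
      z * (sg (z + w) / (sg z * sg w) * Complex.exp (-(qp w) * z))
    rw [inv_div]
    by_cases hZ : sg z = 0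
    · rw [hZ]
      simp
    · field_simp

end

end Pool.Agent.Lib.MP_1a91b9_nuW.KT
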