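import Pool.Agent.Lib.MP_1a91b9_nuW.KT.Leg

/-!
# G7, stream KT, file Phi: the Kronecker theta function

`Phi w z = sg (z + w) / (sg z * sg w) * exp(-(qp w) z)`, `pr γ w = exp(etaE (γ conj w - conj γ w))`.

PROOFS.
* `Phi_add`: if `z` or `w` is in the lattice both sides are `0` (division by `0`; `sg_zero_iff`, `z + l` is in the lattice). Else by
  `sg_add`: `sg (z + l + w) / sg (z + l) = exp(qp l * w) sg (z + w) / sg z`, and
  `exp(-(qp w) (z + l)) = exp(-(qp w) z) exp(-(qp w) l)`; `qp l * w - qp w * l = etaE (conj l * w - l * conj w)` (ring).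
  (No case distinction is necessary: `sg (z + l) = c E sg z` with `c E ≠ 0`, `mul_div_mul_left`.)
* `Phi_add_left`: the same with `sg (z + (w + l)) = c exp(qp l (z + w)) sg (z + w)`, `sg (w + l) = c exp(qp l w) sg w` and
  `qp (w + l) = qp w + qp l`.
* `Phi_neg`: `sg_neg`, `qp (-w) = - qp w`.
* `Phi_diff`, `Phi_pole`: `sg_diff`, `sg_ne`, `tendsto_sg` (`z * Phi w z = (sg z / z)⁻¹ * (sg (z + w) / sg w * exp ..)`).
* `Phi_ne`: obvious.
-/

set_option autoImplicit false

namespace Pool.Agent.Lib.MP_1a91b9_nuW.KT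

open Complex Filter Topology Pool.Agent.Lib.MP_1a91b9_nuT Pool.Agent.Lib.MP_1a91b9_nuT.S3

noncomputable section

variable [Pool.Agent.Lib.MP_1a91b9_nuT.CD]

/-- The Kronecker theta function. -/
def Phi (w z : ℂ) : ℂ := sg (z + w) / (sg z * sg w) * Complex.exp (-(qp w) * z)

/-- The pairing. -/
def pr (γ w : ℂ) : ℂ := Complex.exp (etaE * (γ * (starRingEnd ℂ) w - (starRingEnd ℂ) γ * w))

theorem Phi_add {l : ℂ} (hl : l ∈ PP.lattice) (w z : ℂ) : Phi w (z + l) = pr (-l) w * Phi w z := by
  obtain ⟨c, hc, hadd⟩ := sg_add hl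
  have h1 : sg (z + l + w) = c * Complex.exp (qp l * z) * (Complex.exp (qp l * w) * sg (z + w)) := by
    rw [show z + l + w = (z + w) + l by ring, hadd, mul_add, Complex.exp_add]
    ring
  have h2 : Complex.exp (qp l * w) * Complex.exp (-(qp w) * (z + l))
      = pr (-l) w * Complex.exp (-(qp w) * z) := by
    unfold pr
    rw [← Complex.exp_add, ← Complex.exp_add]
    congr 1
    simp only [qp, map_neg]
    ring
  rw [Phi, Phi, h1, hadd z, mul_assoc (c * Complex.exp (qp l * z)) (sg z) (sg w),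
    mul_div_mul_left _ _ (mul_ne_zero hc (Complex.exp_ne_zero _))]
  calc Complex.exp (qp l * w) * sg (z + w) / (sg z * sg w) * Complex.exp (-(qp w) * (z + l))
      = (Complex.exp (qp l * w) * Complex.exp (-(qp w) * (z + l))) * (sg (z + w) / (sg z * sg w)) := by
        ring
    _ = pr (-l) w * (sg (z + w) / (sg z * sg w) * Complex.exp (-(qp w) * z)) := by
        rw [h2]
        ring

theorem Phi_add_left {l : ℂ} (hl : l ∈ PP.lattice) (w z : ℂ) : Phi (w + l) z = Phi w z := by
  obtain ⟨c, hc, hadd⟩ := sg_add hl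
  have h1 : sg (z + (w + l)) = c * Complex.exp (qp l * w) * (Complex.exp (qp l * z) * sg (z + w)) := by
    rw [show z + (w + l) = (z + w) + l by ring, hadd, mul_add, Complex.exp_add]
    ring
  have h3 : sg z * sg (w + l) = c * Complex.exp (qp l * w) * (sg z * sg w) := by
    rw [hadd w]
    ring
  have h2 : Complex.exp (qp l * z) * Complex.exp (-(qp (w + l)) * z)
      = Complex.exp (-(qp w) * z) := by
    rw [← Complex.exp_add]
    congr 1
    simp only [qp, map_add]
    ring
  rw [Phi, Phi, h1, h3, mul_div_mul_left _ _ (mul_ne_zero hc (Complex.exp_ne_zero _))]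
  calc Complex.exp (qp l * z) * sg (z + w) / (sg z * sg w) * Complex.exp (-(qp (w + l)) * z)
      = (Complex.exp (qp l * z) * Complex.exp (-(qp (w + l)) * z)) * (sg (z + w) / (sg z * sg w)) := by
        ring
    _ = sg (z + w) / (sg z * sg w) * Complex.exp (-(qp w) * z) := by
        rw [h2]
        ring

theorem Phi_neg (w z : ℂ) : Phi (-w) (-z) = -Phi w z := by
  have h1 : sg (-z + -w) = -sg (z + w) := by
    rw [← neg_add, sg_neg]
  have h2 : qp (-w) = -qp w := by
    simp only [qp, map_neg]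
    ring
  rw [Phi, Phi, h1, sg_neg, sg_neg, h2]
  have h3 : -(-qp w) * -z = -(qp w) * z := by ring
  rw [h3, neg_mul_neg, neg_div, neg_mul]

theorem Phi_diff {w z : ℂ} (hw : w ∉ PP.lattice) (hz : z ∉ PP.lattice) :
    DifferentiableAt ℂ (Phi w) z := by
  have h1 : DifferentiableAt ℂ (fun z => sg (z + w)) z :=
    (sg_diff.comp (differentiable_id.add_const w)) z
  have h2 : DifferentiableAt ℂ (fun z => sg z * sg w) z := (sg_diff z).mul_const _
  have h3 : DifferentiableAt ℂ (fun z => Complex.exp (-(qp w) * z)) z :=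
    (differentiableAt_id.const_mul _).cexp
  exact (h1.div h2 (mul_ne_zero (sg_ne hz) (sg_ne hw))).mul h3

theorem Phi_pole {w : ℂ} (hw : w ∉ PP.lattice) :
    Tendsto (fun z => z * Phi w z) (𝓝[≠] 0) (𝓝 1) := by
  have h1 : Tendsto (fun z => (sg z / z)⁻¹) (𝓝[≠] 0) (𝓝 (1 : ℂ)) := by
    simpa using tendsto_sg.inv₀ one_ne_zero
  have hc : ContinuousAt (fun z => sg (z + w) / sg w * Complex.exp (-(qp w) * z)) 0 := by
    have h2 : ContinuousAt (fun z => sg (z + w)) 0 :=
      (sg_diff.continuous.comp (continuous_id.add continuous_const)).continuousAt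
    have h3 : ContinuousAt (fun z => Complex.exp (-(qp w) * z)) 0 :=
      (Complex.continuous_exp.comp (continuous_const.mul continuous_id)).continuousAt
    exact (h2.div_const _).mul h3
  have h2 : Tendsto (fun z => sg (z + w) / sg w * Complex.exp (-(qp w) * z)) (𝓝[≠] 0) (𝓝 (1 : ℂ)) := by
    have h := hc.tendsto
    have h0 : sg (0 + w) / sg w * Complex.exp (-(qp w) * 0) = 1 := by
      rw [zero_add, mul_zero, Complex.exp_zero, mul_one, div_self (sg_ne hw)]
    rw [h0] at h
    exact h.mono_left nhdsWithin_le_nhds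
  have h3 := h1.mul h2
  rw [mul_one] at h3
  refine h3.congr fun z => ?_
  rw [Phi, inv_div]
  ring

theorem Phi_ne {w z : ℂ} (hw : w ∉ PP.lattice) (hz : z ∉ PP.lattice) (hzw : z + w ∉ PP.lattice) :
    Phi w z ≠ 0 := by
  exact mul_ne_zero (div_ne_zero (sg_ne hzw) (mul_ne_zero (sg_ne hz) (sg_ne hw)))
    (Complex.exp_ne_zero _)

end

end Pool.Agent.Lib.MP_1a91b9_nuW.KT
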