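import Pool.Agent.Lib.MP_1a91b9_nuW.KT.Phi

/-!
# G7, stream KT, file PhiN: the product of the Kronecker theta functions at w and -w

`Phi w z = sg (z + w) / (sg z * sg w) * exp(-(qp w) z)`, `pr γ w = exp(etaE (γ conj w - conj γ w))`.

PROOFS.
* `Phi_mul_neg`: `F z = Phi w z * Phi (-w) z - ℘ z`. Apply `liouville_eq`/`liouville` (nuT/S3/Liou.lean) with `S = PP.lattice`:
  `F` is periodic (`Phi_add`; `pr (-l) w * pr (-l) (-w) = 1`; `P_add`); differentiable off the lattice; at lattice points: by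
  `tendsto_lat` of file Ent or `tendsto_at_lattice` it is enough to show `z F(z) → 0` at `0`:
  `Phi w z * Phi (-w) z = g z / z²` with `g z = - (z / sg z)² sg (z + w) sg (z - w) / sg w ²` (the exponentials cancel,
  `sg (-w) = - sg w`). `g` extends to a function differentiable at `0` with `g 0 = - sg w sg(-w) / sg w² = 1`, and `g` is even
  (`sg_neg`), so `g' (0) = 0`. (Write `τ z = dslope sg 0 z`, differentiable, `τ 0 = 1`, `sg z = z τ z`; `τ` is even;
  `g z = - (τ z)⁻² sg (z + w) sg (z - w) / sg w²` is differentiable at `0`, even, so its derivative at `0` vanishes.) So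
  `(g z - 1) / z → 0`, and `z (g z / z² - ℘ z) = (g z - 1) / z - z (℘ z - 1 / z²) → 0` (`P_eq`, `tendsto_Pr`).
  So `F` is a constant off the lattice; at `-w`: `Phi w (-w) = 0` (`sg 0 = 0`), so the constant is `- ℘ (-w) = - ℘ w`
  (`PP.weierstrassP_neg`).
-/

set_option autoImplicit false

namespace Pool.Agent.Lib.MP_1a91b9_nuW.KT

open Complex Filter Topology Pool.Agent.Lib.MP_1a91b9_nuT Pool.Agent.Lib.MP_1a91b9_nuT.S3

noncomputable section

variable [Pool.Agent.Lib.MP_1a91b9_nuT.CD]

private theorem phin_qp_neg (w : ℂ) : qp (-w) = -qp w := by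
  unfold qp
  rw [map_neg]
  ring

private theorem phin_pr (l w : ℂ) : pr l w * pr l (-w) = 1 := by
  unfold pr
  rw [← Complex.exp_add, map_neg]
  have e : etaE * (l * (starRingEnd ℂ) w - (starRingEnd ℂ) l * w) +
      etaE * (l * -(starRingEnd ℂ) w - (starRingEnd ℂ) l * -w) = 0 := by ring
  rw [e, Complex.exp_zero]

/-- the quotient of sigma by the identity -/
private def phinT (z : ℂ) : ℂ := dslope sg 0 z

private theorem phin_sg0 : sg 0 = 0 := sg_zero_iff.2 (zero_mem _)

private theorem phinT_zero : phinT 0 = 1 := by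
  unfold phinT
  rw [dslope_same]
  exact sg_spec.der0.deriv

private theorem phinT_of_ne {z : ℂ} (hz : z ≠ 0) : phinT z = sg z / z := by
  unfold phinT
  rw [dslope_of_ne _ hz, slope_def_field, phin_sg0, sub_zero, sub_zero]

private theorem phin_sg_eq (z : ℂ) : sg z = z * phinT z := by
  by_cases hz : z = 0
  · rw [hz, phin_sg0, zero_mul]
  · rw [phinT_of_ne hz, mul_div_cancel₀ _ hz]

private theorem phinT_neg (z : ℂ) : phinT (-z) = phinT z := by
  by_cases hz : z = 0
  · rw [hz, neg_zero]
  · rw [phinT_of_ne hz, phinT_of_ne (neg_ne_zero.2 hz), sg_neg, neg_div_neg_eq]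

private theorem phinT_diff : Differentiable ℂ phinT := by
  have h : DifferentiableOn ℂ (dslope sg 0) Set.univ :=
    (Complex.differentiableOn_dslope Filter.univ_mem).2 sg_diff.differentiableOn
  exact differentiableOn_univ.1 h

/-- the function `z ^ 2` times the product -/
private def phinG (w z : ℂ) : ℂ := -(sg (z + w) * sg (z - w)) / (phinT z ^ 2 * sg w ^ 2)

private theorem phinG_neg (w z : ℂ) : phinG w (-z) = phinG w z := by
  unfold phinG
  have e1 : sg (-z + w) = -sg (z - w) := by
    rw [← sg_neg]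
    congr 1
    ring
  have e2 : sg (-z - w) = -sg (z + w) := by
    rw [← sg_neg]
    congr 1
    ring
  rw [e1, e2, phinT_neg]
  ring

private theorem phinG_zero {w : ℂ} (hw : w ∉ PP.lattice) : phinG w 0 = 1 := by
  unfold phinG
  rw [zero_add, zero_sub, sg_neg, phinT_zero]
  have h := sg_ne hw
  field_simp

private theorem phinG_diff {w : ℂ} (hw : w ∉ PP.lattice) : DifferentiableAt ℂ (phinG w) 0 := by
  unfold phinG
  have h1 : DifferentiableAt ℂ (fun z => sg (z + w)) 0 :=
    (sg_diff (0 + w)).comp (0 : ℂ) (differentiableAt_id.add_const w)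
  have h2 : DifferentiableAt ℂ (fun z => sg (z - w)) 0 :=
    (sg_diff (0 - w)).comp (0 : ℂ) (differentiableAt_id.sub_const w)
  have h3 : DifferentiableAt ℂ (fun z => phinT z ^ 2 * sg w ^ 2) 0 :=
    ((phinT_diff 0).pow 2).mul_const _
  refine (h1.mul h2).neg.div h3 ?_
  rw [phinT_zero]
  exact mul_ne_zero (by norm_num) (pow_ne_zero _ (sg_ne hw))

private theorem phinG_der {w : ℂ} (hw : w ∉ PP.lattice) : HasDerivAt (phinG w) 0 0 := by
  have h1 := (phinG_diff hw).hasDerivAt
  have h1' : HasDerivAt (phinG w) (deriv (phinG w) 0) (-(0 : ℂ)) := by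
    rw [neg_zero]
    exact h1
  have h2 := h1'.comp (0 : ℂ) (hasDerivAt_neg (0 : ℂ))
  have h3 : (phinG w ∘ Neg.neg) = phinG w := by
    funext z
    exact phinG_neg w z
  have h4 : HasDerivAt (phinG w) (deriv (phinG w) 0 * -1) 0 := by
    rw [h3] at h2
    exact h2
  have h5 := h1.unique h4
  have h6 : deriv (phinG w) 0 = 0 := by linear_combination h5 / 2
  rwa [h6] at h1

private theorem phin_slope {w : ℂ} (hw : w ∉ PP.lattice) :
    Tendsto (fun z => (phinG w z - 1) / z) (𝓝[≠] 0) (𝓝 0) := by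
  have h := (phinG_der hw).tendsto_slope
  refine h.congr fun z => ?_
  rw [slope_def_field, phinG_zero hw, sub_zero]

private theorem phin_eq {w z : ℂ} (hw : w ∉ PP.lattice) (hz : z ∉ PP.lattice) :
    Phi w z * Phi (-w) z = phinG w z / z ^ 2 := by
  have hz0 : z ≠ 0 := by
    rintro rfl
    exact hz (zero_mem _)
  have h1 := sg_ne hz
  have h2 := sg_ne hw
  have h3 : phinT z ≠ 0 := by
    rw [phinT_of_ne hz0]
    exact div_ne_zero h1 hz0
  have e : Complex.exp (-(qp w) * z) * Complex.exp (-(qp (-w)) * z) = 1 := by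
    rw [← Complex.exp_add, phin_qp_neg]
    have e1 : -(qp w) * z + -(-qp w) * z = 0 := by ring
    rw [e1, Complex.exp_zero]
  have e2 : Phi w z * Phi (-w) z = (sg (z + w) / (sg z * sg w) * (sg (z + -w) / (sg z * sg (-w)))) *
      (Complex.exp (-(qp w) * z) * Complex.exp (-(qp (-w)) * z)) := by
    unfold Phi
    ring
  rw [e2, e, mul_one, sg_neg, phinG, ← sub_eq_add_neg, phin_sg_eq z]
  field_simp

private theorem phin_zero {w : ℂ} (hw : w ∉ PP.lattice) :
    Tendsto (fun z => z * (Phi w z * Phi (-w) z - PP.weierstrassP z)) (𝓝[≠] 0) (𝓝 0) := by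
  have h1 := phin_slope hw
  have h2 : Tendsto (fun z => z * Pr z) (𝓝[≠] 0) (𝓝 0) := by
    have h3 := tendsto_Pr (j := 0) (by norm_num)
    have h4 : Tendsto (fun z => Pr z) (𝓝[≠] 0) (𝓝 0) := by
      refine h3.congr fun z => ?_
      rw [pow_zero, inv_one, mul_one]
    have h5 := tendsto_mul_zero h4
    refine h5.congr fun z => ?_
    rw [sub_zero]
  have h3 := h1.sub h2
  rw [sub_zero] at h3
  refine h3.congr' ?_
  filter_upwards [eventually_notMem 0, self_mem_nhdsWithin] with z hz hz0
  have hz1 : z ≠ 0 := hz0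
  rw [phin_eq hw hz, P_eq]
  field_simp
  ring

theorem Phi_mul_neg {w z : ℂ} (hw : w ∉ PP.lattice) (hz : z ∉ PP.lattice) :
    Phi w z * Phi (-w) z = PP.weierstrassP z - PP.weierstrassP w := by
  have hw' : -w ∉ PP.lattice := fun h => hw (by simpa using neg_mem h)
  have hp : ∀ l ∈ PP.lattice, ∀ z, Phi w (z + l) * Phi (-w) (z + l) - PP.weierstrassP (z + l) =
      Phi w z * Phi (-w) z - PP.weierstrassP z := by
    intro l hl z
    rw [Phi_add hl, Phi_add hl, P_add hl]
    have h := phin_pr (-l) w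
    linear_combination (Phi w z * Phi (-w) z) * h
  have hS : ∀ z : ℂ, ∀ᶠ w in 𝓝[≠] z, w ∉ (PP.lattice : Set ℂ) := fun z => eventually_notMem z
  have hd : ∀ z ∉ (PP.lattice : Set ℂ),
      DifferentiableAt ℂ (fun z => Phi w z * Phi (-w) z - PP.weierstrassP z) z := by
    intro z hz
    exact ((Phi_diff hw hz).mul (Phi_diff hw' hz)).sub (hasDerivAt_P hz).differentiableAt
  have hb : ∀ s ∈ (PP.lattice : Set ℂ),
      Tendsto (fun z => (z - s) * (fun z => Phi w z * Phi (-w) z - PP.weierstrassP z) z)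
        (𝓝[≠] s) (𝓝 0) := by
    intro s hs
    have h1 := tendsto_translate (l := s) (phin_zero hw)
    refine h1.congr fun z => ?_
    have h2 := hp s hs (z - s)
    rw [sub_add_cancel] at h2
    show (z - s) * _ = (z - s) * (Phi w z * Phi (-w) z - PP.weierstrassP z)
    rw [h2]
  obtain ⟨c, hc⟩ := liouville hS hd hb hp
  have h1 : Phi w z * Phi (-w) z - PP.weierstrassP z = c := hc z hz
  have h2 : Phi w (-w) * Phi (-w) (-w) - PP.weierstrassP (-w) = c := hc (-w) hw'
  have h3 : Phi w (-w) = 0 := by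
    unfold Phi
    rw [neg_add_cancel, phin_sg0, zero_div, zero_mul]
  rw [h3, zero_mul, PP.weierstrassP_neg] at h2
  linear_combination h1 - h2

end

end Pool.Agent.Lib.MP_1a91b9_nuW.KT
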