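import Pool.Agent.Lib.MP_1a91b9_nuW.KT.Phi
import Pool.Agent.Lib.MP_1a91b9_nuW.KT.LegS

/-!
# G7, stream KT, file Pr: the pairing

PROOFS.
* `pr_add_left`, `pr_add_right`, `norm_pr` (`x - conj x` is purely imaginary times the REAL number `etaE`: by `legendre`,
  `etaE * (zt - conj zt) = s 2 π I`, `zt - conj zt = 2 I zt.im`, so `etaE = s π / zt.im`; state this as `etaE_eq`),
  `pr_lat`: for `γ, w` in the lattice `γ conj w` is in the lattice (`mul_mem`, `conj_mem`), `= m + n zt`, and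
  `etaE ((m + n zt) - conj (m + n zt)) = n s 2 π I`, `exp_int_mul_two_pi_mul_I`.
* `pr_conj`: ring.
* `pr_ker`: write `w = a + b zt` with real `a, b` (`b = w.im / zt.im`, `a = w.re - b zt.re`). `pr 1 w = 1`:
  `etaE (conj w - w) = - b s 2 π I = n 2 π I` so `b = - n s` is an integer; `pr zt w = 1`:
  `etaE (zt conj w - conj zt w) = etaE a (zt - conj zt) = a s 2 π I`, so `a` is an integer (`Complex.exp_eq_one_iff`).
-/

set_option autoImplicit false

namespace Pool.Agent.Lib.MP_1a91b9_nuW.KT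

open Complex Filter Topology Pool.Agent.Lib.MP_1a91b9_nuT Pool.Agent.Lib.MP_1a91b9_nuT.S3

noncomputable section

variable [Pool.Agent.Lib.MP_1a91b9_nuT.CD]

theorem etaE_eq : ∃ s : ℤ, (s = 1 ∨ s = -1) ∧ etaE = (((s : ℝ) * Real.pi / zt.im : ℝ) : ℂ) := by
  obtain ⟨s, hs, h⟩ := legendre
  refine ⟨s, hs, ?_⟩
  have h0 : zt.im ≠ 0 := zt_im_ne_zero
  have h0' : ((zt.im : ℝ) : ℂ) ≠ 0 := by exact_mod_cast h0
  rw [Complex.sub_conj] at h
  push_cast at h ⊢
  have h1 : etaE * (zt.im : ℂ) * (2 * I) = (s : ℂ) * Real.pi * (2 * I) := by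
    linear_combination h
  have h2 : (2 * I : ℂ) ≠ 0 := mul_ne_zero two_ne_zero Complex.I_ne_zero
  have h3 := mul_right_cancel₀ h2 h1
  rw [eq_div_iff h0']
  exact h3

theorem pr_add_left (γ γ' w : ℂ) : pr (γ + γ') w = pr γ w * pr γ' w := by
  unfold pr
  rw [← Complex.exp_add]
  congr 1
  rw [map_add]
  ring

theorem pr_add_right (γ w w' : ℂ) : pr γ (w + w') = pr γ w * pr γ w' := by
  unfold pr
  rw [← Complex.exp_add]
  congr 1
  rw [map_add]
  ring

theorem norm_pr (γ w : ℂ) : ‖pr γ w‖ = 1 := by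
  obtain ⟨s, _, h⟩ := etaE_eq
  unfold pr
  obtain ⟨e, he⟩ : ∃ e : ℝ, e = (s : ℝ) * Real.pi / zt.im := ⟨_, rfl⟩
  rw [h, ← he]
  have h1 : γ * (starRingEnd ℂ) w - (starRingEnd ℂ) γ * w =
      γ * (starRingEnd ℂ) w - (starRingEnd ℂ) (γ * (starRingEnd ℂ) w) := by
    rw [map_mul, Complex.conj_conj]
  have h2 : (e : ℂ) * (γ * (starRingEnd ℂ) w - (starRingEnd ℂ) γ * w) =
      ((e * (2 * (γ * (starRingEnd ℂ) w).im) : ℝ) : ℂ) * I := by
    rw [h1, Complex.sub_conj]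
    push_cast
    ring
  rw [h2, Complex.norm_exp_ofReal_mul_I]

theorem pr_lat {γ w : ℂ} (hγ : γ ∈ PP.lattice) (hw : w ∈ PP.lattice) : pr γ w = 1 := by
  obtain ⟨s, _, h⟩ := legendre
  obtain ⟨m, n, hx⟩ := mem_PP.1 (mul_mem hγ (conj_mem hw))
  unfold pr
  have h1 : γ * (starRingEnd ℂ) w - (starRingEnd ℂ) γ * w =
      γ * (starRingEnd ℂ) w - (starRingEnd ℂ) (γ * (starRingEnd ℂ) w) := by
    rw [map_mul, Complex.conj_conj]
  have h2 : etaE * (γ * (starRingEnd ℂ) w - (starRingEnd ℂ) γ * w) =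
      ((n * s : ℤ) : ℂ) * (2 * Real.pi * I) := by
    rw [h1, ← hx, map_add, map_mul, map_intCast, map_intCast]
    push_cast
    linear_combination (n : ℂ) * h
  rw [h2]
  exact Complex.exp_int_mul_two_pi_mul_I _

theorem pr_conj (α γ w : ℂ) : pr (α * γ) w = pr γ ((starRingEnd ℂ) α * w) := by
  unfold pr
  congr 1
  rw [map_mul, map_mul, Complex.conj_conj]
  ring

theorem pr_ker {w : ℂ} (h : ∀ l ∈ PP.lattice, pr l w = 1) : w ∈ PP.lattice := by
  obtain ⟨s, hs, hL⟩ := legendre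
  have h0 : zt.im ≠ 0 := zt_im_ne_zero
  obtain ⟨b, hb⟩ : ∃ b : ℝ, b = w.im / zt.im := ⟨_, rfl⟩
  obtain ⟨a, ha⟩ : ∃ a : ℝ, a = w.re - b * zt.re := ⟨_, rfl⟩
  have hw : w = (a : ℂ) + (b : ℂ) * zt := by
    apply Complex.ext
    · rw [Complex.add_re, Complex.ofReal_re, Complex.re_ofReal_mul, ha]
      ring
    · rw [Complex.add_im, Complex.ofReal_im, Complex.im_ofReal_mul, hb]
      field_simp
      ring
  have hcw : (starRingEnd ℂ) w = (a : ℂ) + (b : ℂ) * (starRingEnd ℂ) zt := by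
    rw [hw, map_add, map_mul, Complex.conj_ofReal, Complex.conj_ofReal]
  have h2pi : (2 * (Real.pi : ℂ) * I) ≠ 0 := Complex.two_pi_I_ne_zero
  have hss : (s : ℂ) * (s : ℂ) = 1 := by
    rcases hs with h1 | h1
    · rw [h1]
      norm_num
    · rw [h1]
      norm_num
  have h1 := h 1 one_mem
  have h2 := h zt zt_mem
  unfold pr at h1 h2
  obtain ⟨n, hn⟩ := Complex.exp_eq_one_iff.1 h1
  obtain ⟨m, hm⟩ := Complex.exp_eq_one_iff.1 h2
  rw [map_one, one_mul, one_mul, hcw, hw] at hn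
  rw [hcw, hw] at hm
  have hb' : -((b : ℂ) * s) = (n : ℂ) := by
    apply mul_right_cancel₀ h2pi
    linear_combination hn + (b : ℂ) * hL
  have ha' : (a : ℂ) * s = (m : ℂ) := by
    apply mul_right_cancel₀ h2pi
    linear_combination hm - (a : ℂ) * hL
  refine mem_PP.2 ⟨m * s, -(n * s), ?_⟩
  rw [hw]
  push_cast
  linear_combination (-(s : ℂ)) * ha' + (s : ℂ) * zt * hb' + ((a : ℂ) + (b : ℂ) * zt) * hss

end

end Pool.Agent.Lib.MP_1a91b9_nuW.KT
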