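import Pool.Agent.Lib.MP_1a91b9_nuT.S3.Main

/-!
# G7, stream KT, file Sig: the sigma function of the lattice `ℤ + ℤ zt`

`σ(z) = z ∏_{l ≠ 0} (1 - z / l) exp(z / l + z² / (2 l²))`.

PROOF of `exists_sig`.
Let `E(u) = (1 - u) exp(u + u²/2)`, `fac l z = E(z / l)` for `l ≠ 0`, and `fac 0 z = 1`.
(1) `‖E(u) - 1‖ ≤ 8 ‖u‖³` for `‖u‖ ≤ 1`: the derivative of `E` is `-u² exp(u + u²/2)`, of norm at most
    `‖u‖² e^{3/2} ≤ 8 ‖u‖²`; mean value inequality on the ball of radius `‖u‖`
    (`Convex.norm_image_sub_le_of_norm_hasDerivWithin_le` or `Convex.norm_image_sub_le_of_norm_deriv_le`).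
    (The constant is not important.)
(2) `∑_l ‖l‖^(-3)` converges (`ZLattice.summable_norm_rpow`, used in nuT/S3/Zeta.lean for `hasSumLocallyUniformly_ZE`); so on
    each ball of radius `r`: `‖fac l z - 1‖ ≤ 8 r³ ‖l‖^(-3)` for `‖l‖ ≥ r`, `‖z‖ ≤ r`.
(3) The product converges locally uniformly: `Summable.hasProdLocallyUniformlyOn_one_add` / `hasProdLocallyUniformlyOn_of_..`
    (look at Mathlib files Mathlib/Analysis/SpecialFunctions/Log/Summable.lean,
    Mathlib/Analysis/Normed/Ring/InfiniteSum.lean, Mathlib/Topology/Algebra/InfiniteSum/UniformOn.lean,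
    Mathlib/Analysis/Calculus/LogDerivUniformlyOn.lean (`logDeriv_tprod_eq_tsum`); the sine product and the eta function
    Mathlib/NumberTheory/ModularForms/DedekindEta.lean are treated in this way). So `P z = ∏' l, fac l z` is entire and
    `P z ≠ 0` if all the factors are `≠ 0` (`tprod_one_add_ne_zero_of_summable` or the like); `P l = 0` for `l ≠ 0`.
(4) `logDeriv P z = ∑_{l ≠ 0} logDeriv (fac l) z` for `z` not in the lattice, and
    `logDeriv (fac l) z = (z - l)⁻¹ + l⁻¹ + z (l²)⁻¹ = zterm l z` for `l ≠ 0`.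
    `σ z = z * P z`: `logDeriv σ z = z⁻¹ + ∑_{l ≠ 0} zterm l z = Zf z` (`Zf_eq_ZE_zero`, `ZE 0`, `zterm 0 z = z⁻¹`).
    So `HasDerivAt σ (Zf z * σ z) z` off the lattice.
(5) `P 0 = 1` (all factors are `1`), so `σ' (0) = P 0 = 1`.
ALTERNATIVE for (3)-(5): a product over `ℕ` by an enumeration of the lattice.

* `sg_neg`: `z ↦ sg (-z) / sg z` has derivative `0` off the lattice (`Zf_neg`), the complement of the lattice is preconnected and
  open (`isPreconnected_compl_of_countable`, `isOpen_compl`, `countable_lat`, see the proof of `Zf_add_aux` in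
  nuT/S3/Quasi.lean), so it is constant there; its limit at `0` is `-1` by `der0`; at lattice points both sides are `0`.
* `tendsto_sg`: `sg z / z → 1` at `0`: `HasDerivAt.tendsto_slope`, `sg 0 = 0`.
* `tendsto_sg_at`: `sg z / (z - l) → a`, `a ≠ 0`? not needed.
-/

set_option autoImplicit false

namespace Pool.Agent.Lib.MP_1a91b9_nuW.KT

open Complex Filter Topology Pool.Agent.Lib.MP_1a91b9_nuT Pool.Agent.Lib.MP_1a91b9_nuT.S3

noncomputable section

variable [Pool.Agent.Lib.MP_1a91b9_nuT.CD]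

/-- The properties of the sigma function. -/
structure IsSig (σ : ℂ → ℂ) : Prop where
  diff : Differentiable ℂ σ
  zero : ∀ z, σ z = 0 ↔ z ∈ PP.lattice
  der0 : HasDerivAt σ 1 0
  der : ∀ z, z ∉ PP.lattice → HasDerivAt σ (Zf z * σ z) z

/-- The elementary factor of order two. -/
private def sigE (u : ℂ) : ℂ := (1 - u) * Complex.exp (u + u ^ 2 / 2)

omit [Pool.Agent.Lib.MP_1a91b9_nuT.CD] in
private theorem sigE_zero : sigE 0 = 1 := by
  unfold sigE
  simp

omit [Pool.Agent.Lib.MP_1a91b9_nuT.CD] in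
private theorem sigE_der (u : ℂ) : HasDerivAt sigE (-u ^ 2 * Complex.exp (u + u ^ 2 / 2)) u := by
  have h1 : HasDerivAt (fun u : ℂ => 1 - u) (-1) u := (hasDerivAt_id u).const_sub 1
  have h2 : HasDerivAt (fun u : ℂ => u + u ^ 2 / 2) (1 + u) u := by
    have h3 := (hasDerivAt_id u).add ((hasDerivAt_pow 2 u).div_const 2)
    refine h3.congr_deriv ?_
    push_cast
    ring
  have h3 := h1.mul h2.cexp
  refine h3.congr_deriv ?_
  ring

omit [Pool.Agent.Lib.MP_1a91b9_nuT.CD] in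
private theorem sigE_bound {u : ℂ} (hu : ‖u‖ ≤ 1) : ‖sigE u - 1‖ ≤ 8 * ‖u‖ ^ 3 := by
  have hexp : Real.exp 2 ≤ 8 := by
    have h1 := Real.exp_one_lt_d9
    have h2 : Real.exp 2 = Real.exp 1 * Real.exp 1 := by
      rw [← Real.exp_add]
      norm_num
    have h3 := Real.exp_pos 1
    rw [h2]
    nlinarith
  have h1 : ∀ w ∈ Metric.closedBall (0 : ℂ) ‖u‖,
      ‖-w ^ 2 * Complex.exp (w + w ^ 2 / 2)‖ ≤ 8 * ‖u‖ ^ 2 := by
    intro w hw
    rw [mem_closedBall_zero_iff] at hw
    rw [norm_mul, norm_neg, norm_pow, Complex.norm_exp]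
    have h2 : (w + w ^ 2 / 2).re ≤ 2 := by
      refine (Complex.re_le_norm _).trans ((norm_add_le _ _).trans ?_)
      rw [norm_div, norm_pow]
      have h3 : ‖(2 : ℂ)‖ = 2 := by simp
      rw [h3]
      have h4 : ‖w‖ ≤ 1 := hw.trans hu
      have h5 : ‖w‖ ^ 2 ≤ 1 := pow_le_one₀ (norm_nonneg _) h4
      linarith
    have h6 : Real.exp (w + w ^ 2 / 2).re ≤ 8 := (Real.exp_le_exp.2 h2).trans hexp
    have h7 : ‖w‖ ^ 2 ≤ ‖u‖ ^ 2 := pow_le_pow_left₀ (norm_nonneg _) hw 2
    calc ‖w‖ ^ 2 * Real.exp (w + w ^ 2 / 2).re ≤ ‖u‖ ^ 2 * 8 :=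
          mul_le_mul h7 h6 (Real.exp_pos _).le (by positivity)
      _ = 8 * ‖u‖ ^ 2 := by ring
  have h2 := (convex_closedBall (0 : ℂ) ‖u‖).norm_image_sub_le_of_norm_hasDerivWithin_le
    (f := sigE) (f' := fun w => -w ^ 2 * Complex.exp (w + w ^ 2 / 2)) (x := 0) (y := u)
    (fun w _ => (sigE_der w).hasDerivWithinAt) h1 (by simp) (by simp)
  rw [sigE_zero, sub_zero] at h2
  calc ‖sigE u - 1‖ ≤ 8 * ‖u‖ ^ 2 * ‖u‖ := h2
    _ = 8 * ‖u‖ ^ 3 := by ring

/-- The factor of the point `l` minus one. -/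
private def sigG (l z : ℂ) : ℂ := if l = 0 then 0 else sigE (z / l) - 1

omit [Pool.Agent.Lib.MP_1a91b9_nuT.CD] in
private theorem sigG_zero (z : ℂ) : sigG 0 z = 0 := if_pos rfl

omit [Pool.Agent.Lib.MP_1a91b9_nuT.CD] in
private theorem sigG_fac {l : ℂ} (hl : l ≠ 0) (z : ℂ) : 1 + sigG l z = sigE (z / l) := by
  unfold sigG
  rw [if_neg hl]
  ring

omit [Pool.Agent.Lib.MP_1a91b9_nuT.CD] in
private theorem sigG_der {l : ℂ} (hl : l ≠ 0) (z : ℂ) :
    HasDerivAt (fun z => 1 + sigG l z)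
      (-(z / l) ^ 2 * Complex.exp (z / l + (z / l) ^ 2 / 2) * l⁻¹) z := by
  have h1 : (fun z => 1 + sigG l z) = fun z => sigE (z / l) := funext (sigG_fac hl)
  rw [h1]
  have h2 : HasDerivAt (fun z : ℂ => z / l) (l⁻¹) z := by
    have h3 := (hasDerivAt_id z).div_const l
    rwa [one_div] at h3
  exact HasDerivAt.comp z (sigE_der (z / l)) h2

omit [Pool.Agent.Lib.MP_1a91b9_nuT.CD] in
private theorem sigG_diff (l : ℂ) : Differentiable ℂ (fun z => 1 + sigG l z) := by
  by_cases hl : l = 0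
  · subst hl
    have h1 : (fun z => 1 + sigG 0 z) = fun _ => 1 := by
      funext z
      rw [sigG_zero, add_zero]
    rw [h1]
    exact differentiable_const _
  · exact fun z => (sigG_der hl z).differentiableAt

omit [Pool.Agent.Lib.MP_1a91b9_nuT.CD] in
private theorem sigG_ne {l z : ℂ} (hz : l ≠ 0 → z ≠ l) : 1 + sigG l z ≠ 0 := by
  by_cases hl : l = 0
  · subst hl
    rw [sigG_zero, add_zero]
    exact one_ne_zero
  · rw [sigG_fac hl]
    unfold sigE
    refine mul_ne_zero ?_ (Complex.exp_ne_zero _)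
    intro h
    have h1 : z / l = 1 := (sub_eq_zero.1 h).symm
    rw [div_eq_one_iff_eq hl] at h1
    exact hz hl h1

omit [Pool.Agent.Lib.MP_1a91b9_nuT.CD] in
private theorem sigG_self {l : ℂ} (hl : l ≠ 0) : 1 + sigG l l = 0 := by
  rw [sigG_fac hl, div_self hl]
  unfold sigE
  rw [sub_self, zero_mul]

private theorem sigG_logDeriv {l z : ℂ} (hl : l ≠ 0) (hz : z ≠ l) :
    logDeriv (fun z => 1 + sigG l z) z = zterm l z := by
  rw [logDeriv_apply, (sigG_der hl z).deriv, sigG_fac hl, zterm_eq hl hz]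
  unfold sigE
  have h1 : z - l ≠ 0 := sub_ne_zero.2 hz
  have h2 : 1 - z / l ≠ 0 := by
    intro h
    have h3 : z / l = 1 := (sub_eq_zero.1 h).symm
    rw [div_eq_one_iff_eq hl] at h3
    exact hz h3
  have h4 := Complex.exp_ne_zero (z / l + (z / l) ^ 2 / 2)
  rw [mul_right_comm, mul_div_mul_right _ _ h4, div_eq_div_iff h2 (mul_ne_zero (pow_ne_zero 2 hl) h1)]
  field_simp
  ring

private theorem sig_sum : Summable (fun l : PP.lattice => ‖l‖ ^ (-3 : ℝ)) :=
  ZLattice.summable_norm_rpow _ _ (by simp; norm_num)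

private theorem sig_ev {r : ℝ} (hr : 0 < r) : ∀ᶠ l : PP.lattice in cofinite,
    ∀ z ∈ Metric.ball (0 : ℂ) r, ‖sigG l z‖ ≤ 8 * r ^ 3 * ‖l‖ ^ (-3 : ℝ) := by
  have h1 := sig_sum.tendsto_cofinite_zero
  have h2 : (0 : ℝ) < r ^ (-3 : ℝ) := Real.rpow_pos_of_pos hr _
  filter_upwards [h1.eventually_lt_const h2] with l hl z hz
  rw [mem_ball_zero_iff] at hz
  have hnn : (0 : ℝ) ≤ ‖l‖ ^ (-3 : ℝ) := by positivity
  by_cases hl0 : (l : ℂ) = 0
  · rw [hl0, sigG_zero, norm_zero]
    positivity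
  · have hlpos : 0 < ‖(l : ℂ)‖ := norm_pos_iff.2 hl0
    have hnorm : ‖l‖ = ‖(l : ℂ)‖ := rfl
    rw [hnorm] at hl ⊢
    have h3 : r < ‖(l : ℂ)‖ := by
      by_contra hcon
      push Not at hcon
      have h4 : r ^ (-3 : ℝ) ≤ ‖(l : ℂ)‖ ^ (-3 : ℝ) :=
        Real.rpow_le_rpow_of_nonpos hlpos hcon (by norm_num)
      linarith
    have h5 : ‖z / (l : ℂ)‖ ≤ r / ‖(l : ℂ)‖ := by
      rw [norm_div]
      gcongr
    have h6 : ‖z / (l : ℂ)‖ ≤ 1 := h5.trans ((div_le_one hlpos).2 h3.le)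
    unfold sigG
    rw [if_neg hl0]
    refine (sigE_bound h6).trans ?_
    have h7 : ‖z / (l : ℂ)‖ ^ 3 ≤ (r / ‖(l : ℂ)‖) ^ 3 := pow_le_pow_left₀ (norm_nonneg _) h5 3
    have e3 : ‖(l : ℂ)‖ ^ (3 : ℝ) = ‖(l : ℂ)‖ ^ 3 := by norm_cast
    rw [Real.rpow_neg hlpos.le, e3]
    calc 8 * ‖z / (l : ℂ)‖ ^ 3 ≤ 8 * (r / ‖(l : ℂ)‖) ^ 3 := by linarith
      _ = 8 * r ^ 3 * (‖(l : ℂ)‖ ^ 3)⁻¹ := by
        rw [div_pow, div_eq_mul_inv]
        ring

private theorem sig_mult {r : ℝ} (hr : 0 < r) : HasProdLocallyUniformlyOn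
    (fun (l : PP.lattice) (z : ℂ) => 1 + sigG l z) (fun z => ∏' l : PP.lattice, (1 + sigG l z))
    (Metric.ball (0 : ℂ) r) := by
  refine Summable.hasProdLocallyUniformlyOn_one_add Metric.isOpen_ball
    (sig_sum.mul_left (8 * r ^ 3)) (sig_ev hr) ?_
  intro l
  have h1 : Continuous (fun z => sigG l z) := by
    have h2 := (sigG_diff l).continuous.sub (continuous_const (y := (1 : ℂ)))
    have h3 : ((fun z => 1 + sigG l z) - fun _ => (1 : ℂ)) = fun z => sigG l z := by
      funext z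
      change 1 + sigG l z - 1 = sigG l z
      ring
    rwa [h3] at h2
  exact h1.continuousOn

private theorem sig_summ (z : ℂ) : Summable (fun l : PP.lattice => ‖sigG l z‖) := by
  have hr : 0 < ‖z‖ + 1 := by positivity
  have h1 : Summable (fun l : PP.lattice => sigG l z) := by
    refine Summable.of_norm_bounded_eventually (sig_sum.mul_left (8 * (‖z‖ + 1) ^ 3)) ?_
    filter_upwards [sig_ev hr] with l hl
    refine hl z ?_
    rw [mem_ball_zero_iff]
    linarith
  exact h1.norm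

private def sigP (z : ℂ) : ℂ := ∏' l : PP.lattice, (1 + sigG l z)

private theorem sigP_diff : Differentiable ℂ sigP := by
  intro z
  have hr : 0 < ‖z‖ + 1 := by positivity
  have h1 : DifferentiableOn ℂ sigP (Metric.ball (0 : ℂ) (‖z‖ + 1)) := by
    refine (sig_mult hr).differentiableOn (.of_forall fun s => ?_) Metric.isOpen_ball
    exact DifferentiableOn.fun_finsetProd fun l _ => (sigG_diff l).differentiableOn
  refine h1.differentiableAt (Metric.isOpen_ball.mem_nhds ?_)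
  rw [mem_ball_zero_iff]
  linarith

private theorem sigP_ne {z : ℂ} (hz : ∀ l : PP.lattice, (l : ℂ) ≠ 0 → z ≠ l) : sigP z ≠ 0 :=
  tprod_one_add_ne_zero_of_summable (fun l => sigG_ne (hz l)) (sig_summ z)

private theorem sigP_zero_of {l : ℂ} (hl : l ∈ PP.lattice) (h0 : l ≠ 0) : sigP l = 0 :=
  tprod_of_exists_eq_zero ⟨⟨l, hl⟩, sigG_self h0⟩

private theorem sigP_zero : sigP 0 = 1 := by
  unfold sigP
  have h1 : ∀ l : PP.lattice, 1 + sigG l 0 = 1 := by
    intro l
    by_cases hl : (l : ℂ) = 0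
    · rw [hl, sigG_zero, add_zero]
    · rw [sigG_fac hl, zero_div, sigE_zero]
  rw [tprod_congr h1, tprod_one]

private theorem sigP_der {z : ℂ} (hz : z ∉ PP.lattice) : deriv sigP z = ZE 0 z * sigP z := by
  have hr : 0 < ‖z‖ + 1 := by positivity
  have hne : ∀ l : PP.lattice, z ≠ l := fun l h => hz (h ▸ l.2)
  have hP : sigP z ≠ 0 := sigP_ne fun l _ => hne l
  have hs : HasSum (fun l : PP.lattice => if (l : ℂ) = 0 then 0 else zterm l z) (ZE 0 z) :=
    (hasSumLocallyUniformly_ZE 0).hasSum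
  have hld : ∀ l : PP.lattice, logDeriv (fun z => 1 + sigG l z) z =
      if (l : ℂ) = 0 then 0 else zterm l z := by
    intro l
    by_cases hl : (l : ℂ) = 0
    · rw [if_pos hl, hl]
      have h1 : (fun z => 1 + sigG 0 z) = fun _ => 1 := by
        funext z
        rw [sigG_zero, add_zero]
      rw [h1, logDeriv_const]
      rfl
    · rw [if_neg hl]
      exact sigG_logDeriv hl (hne l)
  have hzr : z ∈ Metric.ball (0 : ℂ) (‖z‖ + 1) := by
    rw [mem_ball_zero_iff]
    linarith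
  have h1 : logDeriv (fun z => ∏' l : PP.lattice, (1 + sigG l z)) z =
      ∑' l : PP.lattice, logDeriv (fun z => 1 + sigG l z) z := by
    refine logDeriv_tprod_eq_tsum (f := fun (l : PP.lattice) (z : ℂ) => 1 + sigG l z)
      Metric.isOpen_ball hzr (fun l => sigG_ne fun _ => hne l)
      (fun l => (sigG_diff l).differentiableOn) ?_ (sig_mult hr).multipliableLocallyUniformlyOn hP
    exact hs.summable.congr fun l => (hld l).symm
  have h2 : logDeriv sigP z = ZE 0 z := by
    have h3 : logDeriv sigP z = ∑' l : PP.lattice, logDeriv (fun z => 1 + sigG l z) z := h1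
    rw [h3, tsum_congr hld]
    rfl
  rw [logDeriv_apply, div_eq_iff hP] at h2
  exact h2

theorem exists_sig : ∃ σ : ℂ → ℂ, IsSig σ := by
  have hder : ∀ z, HasDerivAt (fun z => z * sigP z) (1 * sigP z + z * deriv sigP z) z :=
    fun z => (hasDerivAt_id z).mul (sigP_diff z).hasDerivAt
  refine ⟨fun z => z * sigP z, fun z => (hder z).differentiableAt, ?_, ?_, ?_⟩
  · intro z
    constructor
    · intro h
      by_contra hz
      rcases mul_eq_zero.1 h with h1 | h1
      · exact hz (h1 ▸ PP.lattice.zero_mem)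
      · refine sigP_ne (fun l _ h2 => hz ?_) h1
        rw [h2]
        exact l.2
    · intro hz
      by_cases h0 : z = 0
      · rw [h0, zero_mul]
      · rw [sigP_zero_of hz h0, mul_zero]
  · have h1 := hder 0
    rw [sigP_zero, zero_mul, add_zero, one_mul] at h1
    exact h1
  · intro z hz
    have hz0 : z ≠ 0 := fun h => hz (h ▸ PP.lattice.zero_mem)
    refine (hder z).congr_deriv ?_
    rw [sigP_der hz, Zf_eq_ZE_zero]
    field_simp

/-- the sigma function -/
def sg : ℂ → ℂ := Classical.choose exists_sig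

theorem sg_spec : IsSig sg := Classical.choose_spec exists_sig

theorem sg_zero_iff {z : ℂ} : sg z = 0 ↔ z ∈ PP.lattice := sg_spec.zero z

theorem sg_ne {z : ℂ} (hz : z ∉ PP.lattice) : sg z ≠ 0 := fun h => hz (sg_zero_iff.1 h)

theorem sg_diff : Differentiable ℂ sg := sg_spec.diff

theorem sg_cont (z : ℂ) : ContinuousAt sg z := (sg_diff z).continuousAt

private theorem sig_tendsto : Tendsto (fun z => sg z / z) (𝓝[≠] 0) (𝓝 1) := by
  have h1 := hasDerivAt_iff_tendsto_slope.1 sg_spec.der0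
  refine h1.congr' ?_
  filter_upwards with z
  rw [slope_def_field, sg_zero_iff.2 PP.lattice.zero_mem, sub_zero, sub_zero]

theorem sg_neg (z : ℂ) : sg (-z) = -sg z := by
  by_cases hz : z ∈ PP.lattice
  · rw [sg_zero_iff.2 hz, neg_zero]
    exact sg_zero_iff.2 (neg_mem hz)
  · have hneg : ∀ w, w ∉ PP.lattice → -w ∉ PP.lattice := fun w hw h => hw (by simpa using neg_mem h)
    have hd : ∀ w ∈ ((PP.lattice : Set ℂ)ᶜ), HasDerivAt (fun z => sg (-z) / sg z) 0 w := by
      intro w hw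
      have h1 := sg_spec.der w hw
      have h2 := sg_spec.der (-w) (hneg w hw)
      have h3 : HasDerivAt (fun z : ℂ => -z) (-1) w := (hasDerivAt_id w).neg
      have h4 : HasDerivAt (fun z => sg (-z)) (Zf (-w) * sg (-w) * (-1)) w :=
        HasDerivAt.comp w h2 h3
      have h5 := h4.div h1 (sg_ne hw)
      refine h5.congr_deriv ?_
      rw [Zf_neg]
      have h6 : -Zf w * sg (-w) * -1 * sg w - sg (-w) * (Zf w * sg w) = 0 := by ring
      rw [h6, zero_div]
    have hconst : ∀ w, w ∉ PP.lattice → sg (-w) / sg w = sg (-z) / sg z := by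
      intro w hw
      exact isOpen_compl.is_const_of_deriv_eq_zero (f := fun z => sg (-z) / sg z)
        (isPreconnected_compl_of_countable countable_lat)
        (fun w hw => (hd w hw).differentiableAt.differentiableWithinAt)
        (fun w hw => (hd w hw).deriv) hw hz
    have h7 : Tendsto (fun z => sg z / z) (𝓝[≠] 0) (𝓝 1) := sig_tendsto
    have h8 : Tendsto (fun z => sg (-z) / (-z)) (𝓝[≠] 0) (𝓝 1) := by
      refine h7.comp ?_
      have h9 : Tendsto (fun z : ℂ => -z) (𝓝[≠] 0) (𝓝[≠] (-0)) := by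
        refine tendsto_nhdsWithin_iff.2 ⟨?_, ?_⟩
        · exact (continuous_neg.tendsto (0 : ℂ)).mono_left nhdsWithin_le_nhds
        · filter_upwards [self_mem_nhdsWithin] with w hw
          intro h10
          apply hw
          have h11 : -w = -0 := h10
          simpa using h11
      rwa [neg_zero] at h9
    have h12 : Tendsto (fun w => -(sg (-w) / (-w) / (sg w / w))) (𝓝[≠] 0) (𝓝 (-(1 / 1))) :=
      (h8.div h7 one_ne_zero).neg
    have h13 : ∀ᶠ w in 𝓝[≠] (0 : ℂ), -(sg (-w) / (-w) / (sg w / w)) = sg (-z) / sg z := by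
      filter_upwards [eventually_notMem 0, self_mem_nhdsWithin] with w hw hw0
      rw [← hconst w hw]
      have h14 : w ≠ 0 := hw0
      have h15 := sg_ne hw
      field_simp
    have h16 : Tendsto (fun _ : ℂ => sg (-z) / sg z) (𝓝[≠] 0) (𝓝 (-(1 / 1))) :=
      h12.congr' h13
    have h17 : sg (-z) / sg z = -(1 / 1) := tendsto_nhds_unique tendsto_const_nhds h16
    rw [div_eq_iff (sg_ne hz)] at h17
    rw [h17]
    ring

theorem tendsto_sg : Tendsto (fun z => sg z / z) (𝓝[≠] 0) (𝓝 1) := by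
  exact sig_tendsto

end

end Pool.Agent.Lib.MP_1a91b9_nuW.KT
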