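import Pool.Agent.Lib.MP_1a91b9_nuW.KT.Leg

/-!
# G7, stream KT, file Simp: no periodic function with a single simple pole

`qp l = e2E * l + etaE * conj l` is the quasi period of `Zf` (`Zf_add`).

PROOFS.
* `eta_of_simple`: `f` periodic, differentiable off the lattice, `z f(z) → 1` at `0`. Put `h z = f z - Zf z + e2E * z`:
  `h (z + l) = h z - etaE * conj l` for lattice points `l` (`Zf_add`). `z * h z → 1 - 1 + 0 = 0` at `0` (`z Zf z → 1` from
  `Zf_eq_ZE_zero` and continuity of `ZE 0`; or from `tendsto_E1 zero_mem`, since `Zf z = E1 z + e2E z + etaE conj z`). At another lattice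
  point `s`: `(z - s) h z = (z - s) (h (z - s) - etaE * conj s) → 0`. `exists_entire` gives an entire `H` with `H = h` off the lattice,
  and `H (z + l) = H z - etaE * conj l` for all `z` (continuity, density of the complement: limits along `𝓝[≠] z`, as for
  `hGp` in `S3.liouville`). `deriv_const`: `H z = a z + b`. So `a l = - etaE conj l` for all lattice points `l`: `l = 1` gives
  `a = - etaE`, `l = zt` gives `a zt = - etaE conj zt`, so `etaE (zt - conj zt) = 0`, `etaE = 0` (`zt_sub_conj`).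
-/

set_option autoImplicit false

namespace Pool.Agent.Lib.MP_1a91b9_nuW.KT

open Complex Filter Topology Pool.Agent.Lib.MP_1a91b9_nuT Pool.Agent.Lib.MP_1a91b9_nuT.S3

noncomputable section

variable [Pool.Agent.Lib.MP_1a91b9_nuT.CD]

theorem eta_of_simple {f : ℂ → ℂ} (hd : ∀ z ∉ PP.lattice, DifferentiableAt ℂ f z)
    (hp : ∀ l ∈ PP.lattice, ∀ z, f (z + l) = f z)
    (h1 : Tendsto (fun z => z * f z) (𝓝[≠] 0) (𝓝 1)) : etaE = 0 := by
  obtain ⟨h, hh⟩ : ∃ h : ℂ → ℂ, ∀ z, h z = f z - Zf z + e2E * z := ⟨_, fun _ => rfl⟩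
  have hS : ∀ z : ℂ, ∀ᶠ w in 𝓝[≠] z, w ∉ (PP.lattice : Set ℂ) := fun z => S3.eventually_notMem z
  have hadd : ∀ l ∈ PP.lattice, ∀ z, h (z + l) = h z - etaE * (starRingEnd ℂ) l := by
    intro l hl z
    rw [hh, hh, hp l hl, Zf_add hl]
    ring
  have h0 : Tendsto (fun z => z * h z) (𝓝[≠] 0) (𝓝 0) := by
    have e1 : Tendsto (fun z : ℂ => 1 + z * ZE 0 z) (𝓝[≠] 0) (𝓝 1) := by
      have e2 : ContinuousAt (fun z : ℂ => 1 + z * ZE 0 z) 0 :=
        continuousAt_const.add (continuousAt_id.mul hasDerivAt_ZE_zero.continuousAt)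
      have e3 := e2.tendsto
      rw [zero_mul, add_zero] at e3
      exact e3.mono_left nhdsWithin_le_nhds
    have e4 : Tendsto (fun z : ℂ => e2E * z ^ 2) (𝓝[≠] 0) (𝓝 0) := by
      have e5 : ContinuousAt (fun z : ℂ => e2E * z ^ 2) 0 := by fun_prop
      have e6 := e5.tendsto
      rw [zero_pow (by norm_num), mul_zero] at e6
      exact e6.mono_left nhdsWithin_le_nhds
    have e7 := (h1.sub e1).add e4
    rw [sub_self, zero_add] at e7
    refine e7.congr' ?_
    filter_upwards [self_mem_nhdsWithin] with z hz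
    have hz0 : z ≠ 0 := hz
    rw [hh, Zf_eq_ZE_zero z]
    field_simp
  have hs : ∀ s ∈ (PP.lattice : Set ℂ), Tendsto (fun z => (z - s) * h z) (𝓝[≠] s) (𝓝 0) := by
    intro s hs
    have e1 : Tendsto (fun z => (z - s) * h (z - s)) (𝓝[≠] s) (𝓝 0) :=
      tendsto_translate (F := fun z => z * h z) (l := s) h0
    have e2 : Tendsto (fun z : ℂ => (z - s) * (etaE * (starRingEnd ℂ) s)) (𝓝[≠] s) (𝓝 0) := by
      have e3 : ContinuousAt (fun z : ℂ => (z - s) * (etaE * (starRingEnd ℂ) s)) s := by fun_prop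
      have e4 := e3.tendsto
      rw [sub_self, zero_mul] at e4
      exact e4.mono_left nhdsWithin_le_nhds
    have e5 := e1.sub e2
    rw [sub_zero] at e5
    refine e5.congr fun z => ?_
    have e6 := hadd s hs (z - s)
    rw [sub_add_cancel] at e6
    rw [e6]
    ring
  have hhd : ∀ z ∉ (PP.lattice : Set ℂ), DifferentiableAt ℂ h z := by
    intro z hz
    have e1 : h = fun z => f z - Zf z + e2E * z := funext hh
    rw [e1]
    exact ((hd z hz).sub (hasDerivAt_Zf hz).differentiableAt).add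
      (differentiableAt_id.const_mul e2E)
  obtain ⟨H, hHd, hHh⟩ := exists_entire hS hhd hs
  have hHp : ∀ l ∈ PP.lattice, ∀ z, H (z + l) = H z + (- (etaE * (starRingEnd ℂ) l)) := by
    intro l hl z
    have e1 : ∀ᶠ w in 𝓝[≠] z, H (w + l) = H w + (- (etaE * (starRingEnd ℂ) l)) := by
      filter_upwards [hS z] with w hw
      have hw2 : w + l ∉ (PP.lattice : Set ℂ) := fun hc => hw ((add_mem_iff hl).1 hc)
      rw [hHh _ hw, hHh _ hw2, hadd l hl]
      ring
    have hc1 : ContinuousAt (fun w => H (w + l)) z :=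
      ContinuousAt.comp (g := H) (f := fun w => w + l) hHd.continuous.continuousAt (by fun_prop)
    have hc2 : ContinuousAt (fun w => H w + (- (etaE * (starRingEnd ℂ) l))) z :=
      hHd.continuous.continuousAt.add continuousAt_const
    exact tendsto_nhds_unique_of_eventuallyEq
      (hc1.tendsto.mono_left (nhdsWithin_le_nhds (s := {z}ᶜ)))
      (hc2.tendsto.mono_left (nhdsWithin_le_nhds (s := {z}ᶜ))) e1
  obtain ⟨a, b, hab⟩ := deriv_const hHd hHp
  have hl : ∀ l ∈ PP.lattice, a * l = - (etaE * (starRingEnd ℂ) l) := by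
    intro l hl
    have e1 := hHp l hl 0
    rw [hab, hab] at e1
    linear_combination e1
  have e1 := hl 1 S3.one_mem
  have e2 := hl zt S3.zt_mem
  rw [map_one] at e1
  have e3 : etaE * (zt - (starRingEnd ℂ) zt) = 0 := by
    linear_combination zt * e1 - e2
  exact (mul_eq_zero.1 e3).resolve_right zt_sub_conj


end

end Pool.Agent.Lib.MP_1a91b9_nuW.KT
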